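import Mathlib

/-!
# TANK G, section C: the count

`N / F` finite Galois, `D ≤ Gal(N/F)`, `j : O → N` a homomorphism of `k`-algebras, `H` contains the
pointwise stabiliser of `O` in `D`, `y_1 .. y_n ∈ F ∩ O`, `I s` subspaces of `O`, `v` a valuation of
`N` with `v (a (y)) ≥ γ ^ m` for the polynomials `a ≠ 0` of degree `≤ m`, and `v (σ g) ^ q ≤ γ ^ s`
for `g ∈ I s`, `σ ∈ D`.  Then `[D : D ∩ H] * binom (m + n, n) ≤ dim O / I s` for `s ≥ q m + c`, so
`[D : D ∩ H] ≤ q ^ n * E` if `n! dim O / I s ≤ E * (s + c₁) ^ n` for infinitely many `s`.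
(`val_pow_le`: `I s = 𝔪 ^ s`.)
-/

set_option autoImplicit false

namespace Pool.Agent.TGC56

open Module

/-! ### The exponents -/

/-- exponents of the forms of degree `m` in `n + 1` variables -/
abbrev Ex (n m : ℕ) : Type := {P : Fin (n + 1) → ℕ // ∑ i, P i = m}

noncomputable instance (n m : ℕ) : Fintype (Ex n m) :=
  Fintype.ofEquiv _ (Sym.equivNatSumOfFintype (Fin (n + 1)) m)

theorem card_Ex (n m : ℕ) : Fintype.card (Ex n m) = (n + m).choose n := by
  have h1 : Fintype.card (Ex n m) = Fintype.card (Sym (Fin (n + 1)) m) :=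
    (Fintype.card_congr (Sym.equivNatSumOfFintype (Fin (n + 1)) m)).symm
  rw [h1, Sym.card_sym_eq_choose, Fintype.card_fin]
  have h2 : n + 1 + m - 1 = n + m := by omega
  rw [h2]
  exact (Nat.choose_symm_add).symm

/-- the exponent in the last `n` variables -/
noncomputable def ex {n m : ℕ} (P : Ex n m) : Fin n →₀ ℕ :=
  Finsupp.equivFunOnFinite.symm fun i => P.1 i.succ

theorem ex_apply {n m : ℕ} (P : Ex n m) (i : Fin n) : ex P i = P.1 i.succ := rfl

theorem ex_inj {n m : ℕ} : Function.Injective (ex : Ex n m → (Fin n →₀ ℕ)) := by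
  intro P Q h
  apply Subtype.ext
  funext i
  have hs : ∀ j : Fin n, P.1 j.succ = Q.1 j.succ := fun j => DFunLike.congr_fun h j
  refine Fin.cases ?_ hs i
  have h1 := P.2
  have h2 := Q.2
  rw [Fin.sum_univ_succ] at h1 h2
  have h3 : ∑ j : Fin n, P.1 j.succ = ∑ j : Fin n, Q.1 j.succ :=
    Finset.sum_congr rfl fun j _ => hs j
  omega

theorem ex_degree {n m : ℕ} (P : Ex n m) : (ex P).degree ≤ m := by
  have h1 := P.2
  rw [Fin.sum_univ_succ] at h1
  rw [Finsupp.degree_eq_sum]
  have h2 : ∑ i : Fin n, ex P i = ∑ i : Fin n, P.1 i.succ := rfl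
  rw [h2]
  omega

/-! ### Asymptotics -/

theorem asymp {ρ E q n C : ℕ}
    (h : ∃ᶠ m : ℕ in Filter.atTop, ρ * (m + 1) ^ n ≤ E * (q * (m + 1) + C) ^ n) :
    ρ ≤ q ^ n * E := by
  have h1 : Filter.Tendsto (fun m : ℕ => ((q * (m + 1) + C : ℕ) : ℝ) / ((m + 1 : ℕ) : ℝ))
      Filter.atTop (nhds (q : ℝ)) := by
    have h2 : Filter.Tendsto (fun m : ℕ => (q : ℝ) + (C : ℝ) * (((m : ℝ) + 1)⁻¹))
        Filter.atTop (nhds ((q : ℝ) + (C : ℝ) * 0)) := by
      refine tendsto_const_nhds.add (tendsto_const_nhds.mul ?_)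
      exact (tendsto_inv_atTop_zero.comp
        (Filter.tendsto_atTop_add_const_right _ _ tendsto_natCast_atTop_atTop))
    rw [mul_zero, add_zero] at h2
    refine h2.congr fun m => ?_
    have hm : ((m : ℝ) + 1) ≠ 0 := by positivity
    push_cast
    field_simp
  have h3 : Filter.Tendsto (fun m : ℕ => (E : ℝ) *
      (((q * (m + 1) + C : ℕ) : ℝ) / ((m + 1 : ℕ) : ℝ)) ^ n) Filter.atTop
      (nhds ((E : ℝ) * (q : ℝ) ^ n)) := tendsto_const_nhds.mul (h1.pow n)
  have h4 : (ρ : ℝ) ≤ (E : ℝ) * (q : ℝ) ^ n := by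
    refine ge_of_tendsto_of_frequently h3 (h.mono fun m hm' => ?_)
    have hm : (0 : ℝ) < ((m + 1 : ℕ) : ℝ) := by positivity
    rw [div_pow, ← mul_div_assoc, le_div_iff₀ (pow_pos hm n)]
    exact_mod_cast hm'
  have h5 : ρ ≤ E * q ^ n := by exact_mod_cast h4
  rw [mul_comm]
  exact h5

/-! ### Points separating linearly independent functions -/

theorem exists_det_ne_zero {Q X N : Type*} [Fintype Q] [DecidableEq Q] [Field N]
    (f : Q → X → N) (hf : LinearIndependent N f) :
    ∃ b : Q → X, (Matrix.of fun q q' => f q (b q')).det ≠ 0 := by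
  classical
  let ev : X → (Q → N) := fun x q => f q x
  have htop : Submodule.span N (Set.range ev) = ⊤ := by
    by_contra hne
    obtain ⟨φ, hφ0, hφ⟩ := Submodule.exists_le_ker_of_lt_top _ (lt_top_iff_ne_top.2 hne)
    apply hφ0
    have h1 : ∀ q, φ (Pi.single q 1) = 0 := by
      rw [Fintype.linearIndependent_iff] at hf
      refine hf (fun q => φ (Pi.single q 1)) ?_
      funext x
      have h2 : φ (ev x) = 0 := hφ (Submodule.subset_span ⟨x, rfl⟩)
      have h3 : ev x = ∑ q, f q x • (Pi.single q (1 : N) : Q → N) := by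
        funext q
        rw [Finset.sum_apply, Finset.sum_eq_single q]
        · rw [Pi.smul_apply, Pi.single_eq_same, smul_eq_mul, mul_one]
        · intro q' _ hq
          rw [Pi.smul_apply, Pi.single_eq_of_ne (Ne.symm hq), smul_zero]
        · intro h; exact absurd (Finset.mem_univ q) h
      rw [h3, map_sum] at h2
      rw [Finset.sum_apply]
      rw [Pi.zero_apply, ← h2]
      refine Finset.sum_congr rfl fun q _ => ?_
      rw [map_smul, Pi.smul_apply, smul_eq_mul, smul_eq_mul, mul_comm]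
    refine (Pi.basisFun N Q).ext fun q => ?_
    rw [Pi.basisFun_apply, h1 q, LinearMap.zero_apply]
  let B := Basis.ofSpan (K := N) (s := Set.range ev) (ge_of_eq htop)
  have hB : ∀ i, ∃ x, ev x = B i := by
    intro i
    have h1 : B i ∈ Set.range ev := Basis.ofSpan_subset (ge_of_eq htop) ⟨i, rfl⟩
    exact h1
  have hfin : Finite ((linearIndepOn_empty N (id : (Q → N) → (Q → N))).extend
      (Set.empty_subset (Set.range ev)) : Set (Q → N)) := by
    exact Module.Finite.finite_basis B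
  let _ := Fintype.ofFinite ((linearIndepOn_empty N (id : (Q → N) → (Q → N))).extend
      (Set.empty_subset (Set.range ev)) : Set (Q → N))
  have hcard : Fintype.card Q = Fintype.card ((linearIndepOn_empty N
      (id : (Q → N) → (Q → N))).extend (Set.empty_subset (Set.range ev)) : Set (Q → N)) := by
    rw [← Module.finrank_eq_card_basis B, Module.finrank_fintype_fun_eq_card]
  let e := Fintype.equivOfCardEq hcard
  choose x hx using hB
  refine ⟨fun q => x (e q), ?_⟩
  have h1 : LinearIndependent N (fun q : Q => B (e q)) := B.linearIndependent.comp e e.injective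
  have h2 : LinearIndependent N (Matrix.of fun q q' => f q (x (e q'))).transpose.row := by
    have h3 : (Matrix.of fun q q' => f q (x (e q'))).transpose.row = fun q : Q => B (e q) := by
      funext q
      rw [← hx (e q)]
      rfl
    rw [h3]
    exact h1
  rw [Matrix.linearIndependent_rows_iff_isUnit, Matrix.isUnit_iff_isUnit_det,
    Matrix.det_transpose] at h2
  exact h2.ne_zero

/-! ### The count -/

section Count

variable {k F N : Type*} [Field k] [Field F] [Field N] [Algebra k F] [Algebra F N] [Algebra k N]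
  [IsScalarTower k F N] {Γ : Type*} [LinearOrderedCommGroupWithZero Γ]

/-- a cofactor expansion with valuations: `v Δ * v a_j ≤ max v (∑ M a)` -/
theorem val_det_mul_le (v : Valuation N Γ) {Q : Type*} [Fintype Q] [DecidableEq Q]
    (M : Matrix Q Q N) (hM : ∀ i j, v (M i j) ≤ 1) (a : Q → N) (c : Γ)
    (hc : ∀ i, v (∑ j, M i j * a j) ≤ c) (j : Q) : v M.det * v (a j) ≤ c := by
  have hadj : ∀ i j, v (M.adjugate i j) ≤ 1 := by
    intro i j
    rw [Matrix.adjugate_apply, Matrix.det_apply]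
    refine v.map_sum_le fun σ _ => ?_
    have h1 : v (∏ l, (M.updateRow j (Pi.single i 1)) (σ l) l) ≤ 1 := by
      rw [map_prod]
      refine Finset.prod_le_one' fun l _ => ?_
      rw [Matrix.updateRow_apply]
      split_ifs with h
      · by_cases hl : l = i
        · rw [hl, Pi.single_eq_same, map_one]
        · rw [Pi.single_eq_of_ne hl, map_zero]; exact zero_le
      · exact hM _ _
    rcases Int.units_eq_one_or (Equiv.Perm.sign σ) with h | h
    · rw [h, one_smul]; exact h1
    · rw [h, Units.neg_smul, one_smul, Valuation.map_neg]; exact h1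
  have h1 : M.det * a j = ∑ i, M.adjugate j i * ∑ l, M i l * a l := by
    have h2 : (M.adjugate * M).mulVec a j = M.det * a j := by
      rw [Matrix.adjugate_mul, Matrix.smul_mulVec, Matrix.one_mulVec]
      rfl
    rw [← h2, ← Matrix.mulVec_mulVec]
    rfl
  rw [← map_mul, h1]
  refine v.map_sum_le fun i _ => ?_
  rw [map_mul]
  calc v (M.adjugate j i) * v (∑ l, M i l * a l) ≤ 1 * c := mul_le_mul' (hadj j i) (hc i)
    _ = c := one_mul c

omit [Field k] [Field F] [Algebra k F] [Algebra F N] [Algebra k N] [IsScalarTower k F N] in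
/-- values of powers of an ideal -/
theorem val_pow_le (v : Valuation N Γ) (γ : Γ) {O : Type*} [CommRing O] (𝔪 : Ideal O) (q : ℕ)
    (σ : O →+* N) (hO : ∀ g, v (σ g) ≤ 1) (hm : ∀ w ∈ 𝔪, v (σ w) ^ q ≤ γ) (s : ℕ) :
    ∀ g ∈ 𝔪 ^ s, v (σ g) ^ q ≤ γ ^ s := by
  induction s with
  | zero =>
    intro g _
    rw [pow_zero]
    exact pow_le_one' (hO g) q
  | succ s ih =>
    intro g hg
    rw [pow_succ] at hg
    refine Submodule.mul_induction_on hg ?_ ?_
    · intro a ha b hb
      rw [map_mul, map_mul, mul_pow, pow_succ]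
      exact mul_le_mul' (ih a ha) (hm b hb)
    · intro a b ha hb
      rw [map_add]
      rcases le_total (v (σ a)) (v (σ b)) with h | h
      · exact (pow_le_pow_left' ((v.map_add _ _).trans (max_le h le_rfl)) q).trans hb
      · exact (pow_le_pow_left' ((v.map_add _ _).trans (max_le le_rfl h)) q).trans ha

omit [Field F] [Algebra k F] [Algebra F N] [IsScalarTower k F N] in
/-- **The count**, for distinct homomorphisms `τ_q : O → N` and a filtration `I s`. -/
theorem count_core {Q : Type*} [Fintype Q] {O : Type*} [CommRing O] [Algebra k O]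
    (τ : Q → (O →ₐ[k] N)) (hτinj : Function.Injective τ) (v : Valuation N Γ) {γ : Γ}
    (hγ0 : γ ≠ 0) (hγ1 : γ < 1) (hO : ∀ i g, v (τ i g) ≤ 1)
    (harch : ∀ Δ : N, Δ ≠ 0 → ∃ c : ℕ, γ ^ c ≤ v Δ) {n : ℕ} (yO : Fin n → O) (y : Fin n → N)
    (hy : ∀ i j, τ i (yO j) = y j)
    (hord : ∀ (m : ℕ) (a : MvPolynomial (Fin n) k), a ≠ 0 → a.totalDegree ≤ m →
      γ ^ m ≤ v (MvPolynomial.aeval y a))
    (I : ℕ → Submodule k O) (q : ℕ) (hI : ∀ i s, ∀ g ∈ I s, v (τ i g) ^ q ≤ γ ^ s) :
    ∃ c₀ : ℕ, ∀ m s : ℕ, q * m + c₀ ≤ s → ∀ [FiniteDimensional k (O ⧸ I s)],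
      Fintype.card Q * (n + m).choose n ≤ finrank k (O ⧸ I s) := by
  classical
  have hli : LinearIndependent N (fun q => ((τ q : O →* N) : O → N)) :=
    (linearIndependent_monoidHom O N).comp (fun q => (τ q : O →* N)) fun i j hij =>
      hτinj (AlgHom.ext fun x => DFunLike.congr_fun hij x)
  obtain ⟨b, hb⟩ := exists_det_ne_zero (fun q => ((τ q : O →* N) : O → N)) hli
  set M : Matrix Q Q N := Matrix.of fun q q' => τ q (b q') with hMdef
  have hM1 : ∀ i j, v (M i j) ≤ 1 := fun i j => hO i (b j)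
  obtain ⟨c, hc⟩ := harch M.det hb
  refine ⟨q * c + 1, fun m s hs hfin => ?_⟩
  let mon : Ex n m → MvPolynomial (Fin n) k := fun P => MvPolynomial.monomial (ex P) 1
  let yo : MvPolynomial (Fin n) k →ₐ[k] O := MvPolynomial.aeval yO
  have hyo : ∀ (i : Q) (p : MvPolynomial (Fin n) k), τ i (yo p) = MvPolynomial.aeval y p := by
    intro i p
    have h1 : (τ i).comp yo = MvPolynomial.aeval y := by
      refine MvPolynomial.algHom_ext fun l => ?_
      rw [AlgHom.comp_apply, MvPolynomial.aeval_X, MvPolynomial.aeval_X, hy]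
    exact DFunLike.congr_fun h1 p
  -- the map
  let Φ : (Q × Ex n m → k) →ₗ[k] O :=
    { toFun := fun l => ∑ x, (l x • yo (mon x.2)) * b x.1
      map_add' := fun l l' => by
        simp only [Pi.add_apply, add_smul, add_mul, Finset.sum_add_distrib]
      map_smul' := fun c l => by
        simp only [Pi.smul_apply, smul_eq_mul, RingHom.id_apply, Finset.smul_sum, mul_smul,
          smul_mul_assoc] }
  let Ψ : (Q × Ex n m → k) →ₗ[k] (O ⧸ I s) := (I s).mkQ ∘ₗ Φ
  have hΨ : Function.Injective Ψ := by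
    rw [← LinearMap.ker_eq_bot, LinearMap.ker_eq_bot']
    intro l hl
    have hmem : Φ l ∈ I s := (Submodule.Quotient.mk_eq_zero _).1 hl
    -- the polynomials
    let a : Q → MvPolynomial (Fin n) k := fun q => ∑ P : Ex n m, l (q, P) • mon P
    have hdeg : ∀ q, (a q).totalDegree ≤ m := by
      intro q
      refine MvPolynomial.totalDegree_finsetSum_le fun P _ => ?_
      refine (MvPolynomial.totalDegree_smul_le _ _).trans ?_
      refine (MvPolynomial.totalDegree_monomial_le _ _).trans ?_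
      exact ex_degree P
    have hcoeff : ∀ q P, (a q).coeff (ex P) = l (q, P) := by
      intro q P
      rw [MvPolynomial.coeff_sum, Finset.sum_eq_single P]
      · rw [MvPolynomial.coeff_smul, MvPolynomial.coeff_monomial, if_pos rfl, smul_eq_mul, mul_one]
      · intro P' _ hP
        rw [MvPolynomial.coeff_smul, MvPolynomial.coeff_monomial,
          if_neg fun h => hP (ex_inj h), smul_zero]
      · intro h; exact absurd (Finset.mem_univ P) h
    have hΦ : Φ l = ∑ q, yo (a q) * b q := by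
      change ∑ x, (l x • yo (mon x.2)) * b x.1 = _
      rw [Fintype.sum_prod_type]
      refine Finset.sum_congr rfl fun q _ => ?_
      rw [map_sum, Finset.sum_mul]
      refine Finset.sum_congr rfl fun P _ => ?_
      rw [map_smul]
    have hval : ∀ i, v (∑ j, M i j * MvPolynomial.aeval y (a j)) ^ q ≤ γ ^ s := by
      intro i
      have h1 : ∑ j, M i j * MvPolynomial.aeval y (a j) = τ i (Φ l) := by
        rw [hΦ, map_sum]
        refine Finset.sum_congr rfl fun j _ => ?_
        rw [map_mul, hyo, mul_comm]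
        rfl
      rw [h1]
      exact hI i s _ hmem
    have ha0 : ∀ j, a j = 0 := by
      intro j
      by_contra hj
      have : Nonempty Q := ⟨j⟩
      obtain ⟨i₀, hi₀⟩ := Finite.exists_max
        (fun i : Q => v (∑ j, M i j * MvPolynomial.aeval y (a j)))
      have h1 := val_det_mul_le v M hM1 (fun j => MvPolynomial.aeval y (a j)) _
        hi₀ j
      have h2 : (γ ^ c * γ ^ m) ^ q ≤ γ ^ s :=
        (pow_le_pow_left' ((mul_le_mul' hc (hord m (a j) hj (hdeg j))).trans h1) q).trans (hval i₀)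
      rw [← pow_add, ← pow_mul] at h2
      have h3 : γ ^ s < γ ^ ((c + m) * q) := by
        apply pow_lt_pow_right_of_lt_one₀ (zero_lt_iff.2 hγ0) hγ1
        calc (c + m) * q = q * m + q * c := by ring
          _ < q * m + (q * c + 1) := by omega
          _ ≤ s := hs
      exact absurd h2 (not_le.2 h3)
    funext x
    have h1 := hcoeff x.1 x.2
    rw [ha0 x.1, MvPolynomial.coeff_zero] at h1
    exact h1.symm
  have h1 := LinearMap.finrank_le_finrank_of_injective hΨ
  rw [Module.finrank_fintype_fun_eq_card, Fintype.card_prod, card_Ex] at h1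
  exact h1

omit [Field F] [Algebra k F] [Algebra F N] [IsScalarTower k F N] in
/-- **The count**, asymptotic form. -/
theorem card_le {Q : Type*} [Fintype Q] {O : Type*} [CommRing O] [Algebra k O]
    (τ : Q → (O →ₐ[k] N)) (hτinj : Function.Injective τ) (v : Valuation N Γ) {γ : Γ}
    (hγ0 : γ ≠ 0) (hγ1 : γ < 1) (hO : ∀ i g, v (τ i g) ≤ 1)
    (harch : ∀ Δ : N, Δ ≠ 0 → ∃ c : ℕ, γ ^ c ≤ v Δ) {n : ℕ} (yO : Fin n → O) (y : Fin n → N)
    (hy : ∀ i j, τ i (yO j) = y j)
    (hord : ∀ (m : ℕ) (a : MvPolynomial (Fin n) k), a ≠ 0 → a.totalDegree ≤ m →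
      γ ^ m ≤ v (MvPolynomial.aeval y a))
    (I : ℕ → Submodule k O) {q : ℕ} (hq : 0 < q) (hI : ∀ i s, ∀ g ∈ I s, v (τ i g) ^ q ≤ γ ^ s)
    {E c₁ : ℕ} (hE : ∃ᶠ s : ℕ in Filter.atTop, FiniteDimensional k (O ⧸ I s) ∧
      n.factorial * finrank k (O ⧸ I s) ≤ E * (s + c₁) ^ n) :
    Fintype.card Q ≤ q ^ n * E := by
  obtain ⟨c₀, h⟩ := count_core τ hτinj v hγ0 hγ1 hO harch yO y hy hord I q hI
  refine asymp (C := c₀ + c₁) ?_
  rw [Filter.frequently_atTop] at hE ⊢
  intro a
  obtain ⟨s, hs, hfin, hle⟩ := hE (q * a + c₀)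
  -- `m = (s - c₀) / q`
  set m := (s - c₀) / q with hmdef
  have hm1 : q * m ≤ s - c₀ := Nat.mul_div_le _ _
  have hm2 : s - c₀ < q * (m + 1) := by
    rw [hmdef]
    exact Nat.lt_mul_div_succ _ hq
  have hm3 : a ≤ m := by
    rw [hmdef, Nat.le_div_iff_mul_le hq, mul_comm]
    omega
  refine ⟨m, hm3, ?_⟩
  have h1 := (h m s (by omega))
  have h2 : (m + 1) ^ n ≤ n.factorial * (n + m).choose n := by
    have h3 := Nat.pow_succ_le_ascFactorial (m + 1) n
    rw [Nat.ascFactorial_eq_factorial_mul_choose, Nat.add_comm m n] at h3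
    exact h3
  calc Fintype.card Q * (m + 1) ^ n ≤ Fintype.card Q * (n.factorial * (n + m).choose n) :=
        Nat.mul_le_mul_left _ h2
    _ = n.factorial * (Fintype.card Q * (n + m).choose n) := by ring
    _ ≤ n.factorial * finrank k (O ⧸ I s) := Nat.mul_le_mul_left _ h1
    _ ≤ E * (s + c₁) ^ n := hle
    _ ≤ E * (q * (m + 1) + (c₀ + c₁)) ^ n :=
        Nat.mul_le_mul_left _ (Nat.pow_le_pow_left (by omega) _)

/-- **The count** for a local degree: `[D : D ∩ H] ≤ q ^ n E`, for a filtration `I s`. -/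
theorem relIndex_le (D H : Subgroup (N ≃ₐ[F] N)) [Finite (N ≃ₐ[F] N)] {O : Type*} [CommRing O]
    [Algebra k O] (j : O →ₐ[k] N)
    (hsep : ∀ σ ∈ D, (∀ g, σ (j g) = j g) → σ ∈ H) (v : Valuation N Γ) {γ : Γ} (hγ0 : γ ≠ 0)
    (hγ1 : γ < 1) (hO : ∀ σ ∈ D, ∀ g, v (σ (j g)) ≤ 1)
    (harch : ∀ Δ : N, Δ ≠ 0 → ∃ c : ℕ, γ ^ c ≤ v Δ) {n : ℕ} (y : Fin n → F) (yO : Fin n → O)
    (hy : ∀ i, j (yO i) = algebraMap F N (y i))
    (hord : ∀ (m : ℕ) (a : MvPolynomial (Fin n) k), a ≠ 0 → a.totalDegree ≤ m →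
      γ ^ m ≤ v (MvPolynomial.aeval (fun i => algebraMap F N (y i)) a))
    (I : ℕ → Submodule k O) {q : ℕ} (hq : 0 < q)
    (hI : ∀ σ ∈ D, ∀ s, ∀ g ∈ I s, v (σ (j g)) ^ q ≤ γ ^ s) {E c₁ : ℕ}
    (hE : ∃ᶠ s : ℕ in Filter.atTop, FiniteDimensional k (O ⧸ I s) ∧
      n.factorial * finrank k (O ⧸ I s) ≤ E * (s + c₁) ^ n) :
    H.relIndex D ≤ q ^ n * E := by
  classical
  let Q := D ⧸ H.subgroupOf D
  have : Finite Q := inferInstance
  let _ : Fintype Q := Fintype.ofFinite Q
  have hcard : H.relIndex D = Fintype.card Q := by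
    rw [Subgroup.relIndex, Subgroup.index, Nat.card_eq_fintype_card]
  let τ : Q → (O →ₐ[k] N) := fun q =>
    ((((q.out : D) : N ≃ₐ[F] N) : N →ₐ[F] N).restrictScalars k).comp j
  have hτ : ∀ q (g : O), τ q g = ((q.out : D) : N ≃ₐ[F] N) (j g) := fun q g => rfl
  have hτinj : Function.Injective τ := by
    intro q q' hqq
    have h1 : ((q.out : D) : N ≃ₐ[F] N)⁻¹ * ((q'.out : D) : N ≃ₐ[F] N) ∈ H := by
      refine hsep _ (D.mul_mem (D.inv_mem q.out.2) q'.out.2) fun g => ?_
      have h2 : ((q.out : D) : N ≃ₐ[F] N) (j g) = ((q'.out : D) : N ≃ₐ[F] N) (j g) :=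
        DFunLike.congr_fun hqq g
      rw [AlgEquiv.mul_apply, ← h2]
      exact AlgEquiv.symm_apply_apply _ _
    have h3 : (QuotientGroup.mk q.out : Q) = QuotientGroup.mk q'.out := by
      rw [QuotientGroup.eq, Subgroup.mem_subgroupOf]
      exact h1
    rwa [QuotientGroup.out_eq', QuotientGroup.out_eq'] at h3
  rw [hcard]
  refine card_le τ hτinj v hγ0 hγ1 (fun i g => hO _ i.out.2 g) harch yO _ (fun i l => ?_) hord I
    hq (fun i s g hg => hI _ i.out.2 s g hg) hE
  rw [hτ, hy]
  exact AlgEquiv.commutes _ _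

end Count

end Pool.Agent.TGC56
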