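import Pool.Agent.Lib.TG_h56.PtP
import Pool.Agent.Lib.TG_h45.Bpf
import Pool.Agent.Lib.TG.ZDim
import Mathlib

/-!
# TANK G, section C: the local degrees of `K` over `P^n` at all points, from Theorem 1

`e` generates the space `H` of a model of `K`, `G` are forms of degree `q` in `e` for which the
conclusion `T1at` of Theorem 1 holds at all valuation rings.  Then the local degrees over the
projective space with the homogeneous coordinates `G (e)` are `≤ q ^ n E`.
-/

set_option autoImplicit false

namespace Pool.Agent.TGC56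

open Module MvPolynomial Filter
open Pool.Agent.TG
open Pool.Agent.TG15
open Pool.Agent.LU2 (locV)

universe u

section ZD

variable {k K F : Type u} [Field k] [Field K] [Field F] [Algebra k K] [Algebra k F] [Algebra F K]
  [IsScalarTower k F K]

/-- Zero-dimensional valuations in algebraic extensions. -/
theorem zdim_of_comap [IsAlgClosed k] [Algebra.IsAlgebraic F K] {V : ValuationSubring K}
    (hV : ZDim k (V.comap (algebraMap F K))) : ZDim k V := by
  classical
  have hov : Ov k V := fun c => by
    have h1 := hV.ov c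
    change algebraMap F K (algebraMap k F c) ∈ V at h1
    rwa [← IsScalarTower.algebraMap_apply] at h1
  refine ⟨hov, fun x hx => ?_⟩
  obtain ⟨p, hp0, hp⟩ := Algebra.IsAlgebraic.isAlgebraic (R := F) x
  set v₀ := V.comap (algebraMap F K) with hv₀
  obtain ⟨i₀, hi₀, hmax⟩ := p.support.exists_max_image (fun i => v₀.valuation (p.coeff i))
    (Polynomial.support_nonempty.2 hp0)
  have hpi : p.coeff i₀ ≠ 0 := Polynomial.mem_support_iff.1 hi₀
  -- the normalised coefficients
  have hcv : ∀ i, p.coeff i / p.coeff i₀ ∈ v₀ := by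
    intro i
    rw [← v₀.valuation_le_one_iff, map_div₀]
    have h0 : 0 < v₀.valuation (p.coeff i₀) := zero_lt_iff.2 ((Valuation.ne_zero_iff _).2 hpi)
    refine (div_le_one₀ h0).2 ?_
    by_cases hi : i ∈ p.support
    · exact hmax i hi
    · rw [Polynomial.notMem_support_iff.1 hi, map_zero]; exact zero_le
  choose c hc using fun i => hV.res _ (hcv i)
  let P : Polynomial k := ∑ i ∈ p.support, Polynomial.monomial i (c i)
  have hPc : P.coeff i₀ = c i₀ := by
    rw [Polynomial.finsetSum_coeff, Finset.sum_eq_single i₀]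
    · rw [Polynomial.coeff_monomial, if_pos rfl]
    · intro b _ hb; rw [Polynomial.coeff_monomial, if_neg hb]
    · intro h; exact absurd hi₀ h
  have hP0 : P ≠ 0 := by
    intro h
    rw [h, Polynomial.coeff_zero] at hPc
    have h1 := hc i₀
    rw [div_self hpi, ← hPc, map_zero, sub_zero, map_one] at h1
    exact lt_irrefl _ h1
  have hPx : V.valuation (Polynomial.aeval x P) < 1 := by
    have h1 : Polynomial.aeval x P = -∑ i ∈ p.support,
        (algebraMap F K (p.coeff i / p.coeff i₀ - algebraMap k F (c i))) * x ^ i := by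
      have h2 : ∑ i ∈ p.support, algebraMap F K (p.coeff i / p.coeff i₀) * x ^ i = 0 := by
        have h3 : ∑ i ∈ p.support, algebraMap F K (p.coeff i) * x ^ i = 0 := by
          rw [Polynomial.aeval_def, Polynomial.eval₂_eq_sum, Polynomial.sum] at hp
          exact hp
        calc ∑ i ∈ p.support, algebraMap F K (p.coeff i / p.coeff i₀) * x ^ i
            = (algebraMap F K (p.coeff i₀))⁻¹ * ∑ i ∈ p.support, algebraMap F K (p.coeff i) * x ^ i := by
              rw [Finset.mul_sum]
              refine Finset.sum_congr rfl fun i _ => ?_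
              rw [map_div₀]
              ring
          _ = 0 := by rw [h3, mul_zero]
      have h4 : Polynomial.aeval x P = ∑ i ∈ p.support, algebraMap k K (c i) * x ^ i := by
        rw [map_sum]
        exact Finset.sum_congr rfl fun i _ => by rw [Polynomial.aeval_monomial]
      rw [h4]
      have h5 : ∑ i ∈ p.support, (algebraMap F K (p.coeff i / p.coeff i₀ - algebraMap k F (c i))) *
          x ^ i = ∑ i ∈ p.support, algebraMap F K (p.coeff i / p.coeff i₀) * x ^ i -
            ∑ i ∈ p.support, algebraMap k K (c i) * x ^ i := by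
        rw [← Finset.sum_sub_distrib]
        refine Finset.sum_congr rfl fun i _ => ?_
        rw [map_sub, ← IsScalarTower.algebraMap_apply]
        ring
      rw [h5, h2, zero_sub, neg_neg]
    rw [h1, Valuation.map_neg]
    refine V.valuation.map_sum_lt one_ne_zero fun i _ => ?_
    rw [map_mul]
    have h6 : V.valuation (x ^ i) ≤ 1 := (V.valuation_le_one_iff _).2 (pow_mem hx i)
    exact (mul_le_of_le_one_right' h6).trans_lt ((comap_lt_one V _).1 (hc i))
  -- a root
  have hsplit := IsAlgClosed.splits P
  by_contra hcon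
  push Not at hcon
  have hprod : ∀ s : Multiset k, 1 ≤ V.valuation (Polynomial.aeval x
      (s.map fun a => Polynomial.X - Polynomial.C a).prod) := by
    intro s
    induction s using Multiset.induction_on with
    | empty => rw [Multiset.map_zero, Multiset.prod_zero, map_one, map_one]
    | cons a s ih =>
      rw [Multiset.map_cons, Multiset.prod_cons, map_mul, map_mul, map_sub, Polynomial.aeval_X,
        Polynomial.aeval_C]
      exact one_le_mul (hcon a) ih
  have h7 := hsplit.eq_prod_roots
  rw [h7, map_mul, Polynomial.aeval_C, map_mul] at hPx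
  have h8 : V.valuation (algebraMap k K P.leadingCoeff) = 1 := by
    have h9 : P.leadingCoeff ≠ 0 := Polynomial.leadingCoeff_ne_zero.2 hP0
    refine le_antisymm ((V.valuation_le_one_iff _).2 (hov _)) ?_
    have h10 := (V.valuation_le_one_iff _).2 (hov P.leadingCoeff⁻¹)
    rw [map_inv₀, map_inv₀] at h10
    exact (inv_le_one₀ (zero_lt_iff.2 ((Valuation.ne_zero_iff _).2
      ((map_ne_zero _).2 h9)))).1 h10
  rw [h8, one_mul] at hPx
  exact absurd (hprod _) (not_le.2 hPx)

end ZD

section Main

variable {k K F : Type u} [Field k] [Field K] [Field F] [Algebra k K] [Algebra k F] [Algebra F K]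
  [IsScalarTower k F K]

/-- The conclusion of Theorem 1 at the valuation ring `ω`. -/
def T1at (q : ℕ) {N n : ℕ} (e : Fin (N + 1) → K) (G : Fin (n + 2) → MvPolynomial (Fin (N + 1)) k)
    (ω : ValuationSubring K) : Prop :=
  ∀ l₀, e l₀ ≠ 0 → (∀ l, e l / e l₀ ∈ ω) → ∀ y : Fin (N + 1) → k,
    (∀ l, ω.valuation (e l / e l₀ - algebraMap k K (y l)) < 1) →
    (∃ j, eval y (G j) ≠ 0) ∧ ∀ l, ∃ a : Fin (n + 2) → k, ∑ j, a j * eval y (G j) = 0 ∧
      ω.valuation (e l / e l₀ - algebraMap k K (y l)) ^ q ≤
        ω.valuation ((∑ j, a j • aeval e (G j)) / e l₀ ^ q)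

/-- polynomials are continuous -/
theorem val_aeval_sub_lt {ω : ValuationSubring K} (hω : Ov k ω) {m : ℕ} {x : Fin m → K}
    {y : Fin m → k} (hx : ∀ i, ω.valuation (x i - algebraMap k K (y i)) < 1)
    (p : MvPolynomial (Fin m) k) :
    ω.valuation (aeval x p - algebraMap k K (eval y p)) < 1 := by
  have hxω : ∀ i, ω.valuation (x i) ≤ 1 := by
    intro i
    have h1 : x i = (x i - algebraMap k K (y i)) + algebraMap k K (y i) := by ring
    rw [h1]
    exact (ω.valuation.map_add _ _).trans (max_le (hx i).le ((ω.valuation_le_one_iff _).2 (hω _)))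
  induction p using MvPolynomial.induction_on with
  | C c => rw [aeval_C, eval_C, sub_self, map_zero]; exact zero_lt_one
  | add p q hp hq =>
    have h2 : aeval x (p + q) - algebraMap k K (eval y (p + q)) =
        (aeval x p - algebraMap k K (eval y p)) + (aeval x q - algebraMap k K (eval y q)) := by
      rw [map_add, map_add, map_add]; ring
    rw [h2]
    exact (ω.valuation.map_add _ _).trans_lt (max_lt hp hq)
  | mul_X p i hp =>
    have h2 : aeval x (p * X i) - algebraMap k K (eval y (p * X i)) =
        (aeval x p - algebraMap k K (eval y p)) * x i +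
          algebraMap k K (eval y p) * (x i - algebraMap k K (y i)) := by
      rw [map_mul, map_mul, eval_X, map_mul, aeval_X]; ring
    rw [h2]
    refine (ω.valuation.map_add _ _).trans_lt (max_lt ?_ ?_)
    · rw [map_mul]; exact (mul_le_of_le_one_right' (hxω i)).trans_lt hp
    · rw [map_mul]
      exact (mul_le_of_le_one_left' ((ω.valuation_le_one_iff _).2 (hω _))).trans_lt (hx i)

theorem prod_mem_prod' {ι : Type*} (s : Finset ι) (S : ι → Submodule k K) (f : ι → K)
    (h : ∀ i ∈ s, f i ∈ S i) : ∏ i ∈ s, f i ∈ ∏ i ∈ s, S i := by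
  classical
  induction s using Finset.induction_on with
  | empty => rw [Finset.prod_empty, Finset.prod_empty]; exact Submodule.one_le.1 le_rfl
  | insert a s ha ih =>
    rw [Finset.prod_insert ha, Finset.prod_insert ha]
    exact Submodule.mul_mem_mul (h a (Finset.mem_insert_self a s))
      (ih fun i hi => h i (Finset.mem_insert_of_mem hi))

/-- forms evaluated at elements of a subspace -/
theorem aeval_mem_pow' {N q : ℕ} (e : Fin (N + 1) → K) {G : MvPolynomial (Fin (N + 1)) k}
    (hG : G.IsHomogeneous q) : aeval e G ∈ (Submodule.span k (Set.range e)) ^ q := by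
  classical
  rw [aeval_def, eval₂_eq']
  refine Submodule.sum_mem _ fun s hs => ?_
  rw [← Algebra.smul_def]
  refine Submodule.smul_mem _ _ ?_
  have h1 : s.degree = q := by
    by_contra h
    exact (mem_support_iff.1 hs) (hG.coeff_eq_zero h)
  rw [← h1, Finsupp.degree_eq_sum, ← Finset.prod_pow_eq_pow_sum]
  refine prod_mem_prod' (k := k) Finset.univ
    (fun i => (Submodule.span k (Set.range e)) ^ (s i)) (fun i => e i ^ s i) fun i _ => ?_
  have h2 : e i ∈ Submodule.span k (Set.range e) := Submodule.subset_span ⟨i, rfl⟩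
  exact Submodule.pow_mem_pow _ h2 _

variable {q N n : ℕ} {e : Fin (N + 1) → K} {G : Fin (n + 2) → MvPolynomial (Fin (N + 1)) k}

/-- a minimal generator -/
theorem exists_min_gen {V : ValuationSubring K} (hV : Ov k V) (he : ∃ l, e l ≠ 0) :
    ∃ l₀, IsMin V (Submodule.span k (Set.range e)) (e l₀) := by
  classical
  obtain ⟨l, hl⟩ := he
  have h1 := exists_isMin_mem (V := V) hV (Finset.univ.image e)
    ⟨e l, Finset.mem_image_of_mem _ (Finset.mem_univ l), hl⟩
  obtain ⟨f, hf, hmin⟩ := h1
  obtain ⟨l₀, -, rfl⟩ := Finset.mem_image.1 hf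
  refine ⟨l₀, ?_⟩
  rw [Finset.coe_image, Finset.coe_univ, Set.image_univ] at hmin
  exact hmin

/-- `G_j(e) / e_{l₀} ^ q` and `G_j(y)`. -/
theorem val_form_sub_lt (hG : ∀ j, (G j).IsHomogeneous q) {ω : ValuationSubring K} (hω : Ov k ω)
    {l₀ : Fin (N + 1)} (hl₀ : e l₀ ≠ 0) {y : Fin (N + 1) → k}
    (hy : ∀ l, ω.valuation (e l / e l₀ - algebraMap k K (y l)) < 1) (j : Fin (n + 2)) :
    ω.valuation (aeval e (G j) / e l₀ ^ q - algebraMap k K (eval y (G j))) < 1 := by
  have h1 : aeval e (G j) = e l₀ ^ q * aeval (fun l => e l / e l₀) (G j) := by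
    rw [← aeval_form (e l₀) (fun l => e l / e l₀) (G j) (hG j)]
    congr 1
    exact congrArg _ (funext fun l => (mul_div_cancel₀ _ hl₀).symm)
  rw [h1, mul_div_cancel_left₀ _ (pow_ne_zero _ hl₀)]
  exact val_aeval_sub_lt hω hy (G j)

/-- The forms `G` have no common zeros. -/
theorem bpf_forms [IsAlgClosed k] (hG : ∀ j, (G j).IsHomogeneous q) (he : ∃ l, e l ≠ 0)
    (hT : ∀ ω : ValuationSubring K, Ov k ω → T1at q e G ω) :
    Bpf (Submodule.span k (Set.range e) ^ q)
      (Submodule.span k (Set.range fun j => aeval e (G j))) := by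
  classical
  refine ⟨?_, fun V hV => ?_⟩
  · rw [Submodule.span_le]
    rintro _ ⟨j, rfl⟩
    exact aeval_mem_pow' e (hG j)
  · -- a zero-dimensional refinement
    have hA : ∀ a ∈ (⊥ : Subalgebra k K), a ∈ V := by
      rintro _ ⟨c, rfl⟩; exact hV c
    obtain ⟨W, hWV, hW, -, -⟩ := exists_zdim_centre (k := k) V ⊥ Subalgebra.fg_bot hA
      (⊥ : Ideal (⊥ : Subalgebra k K)) bot_ne_top (by
        rintro ⟨a, c, rfl⟩ ha
        by_contra hne
        have hc : c ≠ 0 := by
          rintro rfl
          exact hne (Ideal.mem_bot.2 (Subtype.ext (map_zero (algebraMap k K))))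
        have h1 : V.valuation (algebraMap k K c) < 1 := ha
        have h2 := (V.valuation_le_one_iff _).2 (hV c⁻¹)
        have h3 : V.valuation (algebraMap k K c) * V.valuation (algebraMap k K c⁻¹) = 1 := by
          rw [← map_mul, ← map_mul, mul_inv_cancel₀ hc, map_one, map_one]
        exact absurd h3 (ne_of_lt ((mul_le_of_le_one_right' h2).trans_lt h1)))
    obtain ⟨l₀, hl₀⟩ := exists_min_gen hW.ov he
    choose y hy using fun l => hW.res _ (hl₀.div (e l) (Submodule.subset_span ⟨l, rfl⟩))
    obtain ⟨⟨j, hj⟩, -⟩ := hT W hW.ov l₀ hl₀.ne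
      (fun l => hl₀.div (e l) (Submodule.subset_span ⟨l, rfl⟩)) y hy
    refine ⟨aeval e (G j), Submodule.subset_span ⟨j, rfl⟩, ?_⟩
    have hmin : IsMin V (Submodule.span k (Set.range e) ^ q) (e l₀ ^ q) :=
      (hl₀.of_le hWV).pow hV q
    refine hmin.of_val (aeval_mem_pow' e (hG j)) ?_
    have h1 := val_form_sub_lt hG hW.ov hl₀.ne hy j
    -- it is a unit of `W`
    have h2 : W.valuation (algebraMap k K (eval y (G j))) = 1 := by
      refine le_antisymm ((W.valuation_le_one_iff _).2 (hW.ov _)) ?_
      have h10 := (W.valuation_le_one_iff _).2 (hW.ov (eval y (G j))⁻¹)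
      rw [map_inv₀, map_inv₀] at h10
      exact (inv_le_one₀ (zero_lt_iff.2 ((Valuation.ne_zero_iff _).2
        ((map_ne_zero _).2 hj)))).1 h10
    have h3 : W.valuation (aeval e (G j) / e l₀ ^ q) = 1 := by
      have h4 : aeval e (G j) / e l₀ ^ q = (aeval e (G j) / e l₀ ^ q -
          algebraMap k K (eval y (G j))) + algebraMap k K (eval y (G j)) := by ring
      rw [h4, W.valuation.map_add_eq_of_lt_right (by rw [h2]; exact h1), h2]
    have h5 : aeval e (G j) / e l₀ ^ q ∈ W := (W.valuation_le_one_iff _).1 h3.le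
    have h6 : (aeval e (G j) / e l₀ ^ q)⁻¹ ∈ W := by
      rw [← W.valuation_le_one_iff, map_inv₀, h3, inv_one]
    have h7 := (V.valuation_le_one_iff _).2 (hWV h5)
    have h8 := (V.valuation_le_one_iff _).2 (hWV h6)
    have h9 : aeval e (G j) / e l₀ ^ q ≠ 0 := by
      intro h
      rw [h, map_zero] at h3
      exact zero_ne_one h3
    rw [map_inv₀] at h8
    exact le_antisymm h7 ((inv_le_one₀ (zero_lt_iff.2 ((Valuation.ne_zero_iff _).2 h9))).1 h8)

/-- **The local degrees over the projective space.** -/
theorem ldeg_proj [IsAlgClosed k] (hq : 0 < q) (he : ∃ l, e l ≠ 0) (hG : ∀ j, (G j).IsHomogeneous q)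
    (hT : ∀ ω : ValuationSubring K, Ov k ω → T1at q e G ω)
    (hbir : Bir (Submodule.span k (Set.range e))) {E : ℕ}
    (hdim : ∀ V : ValuationSubring K, ZDim k V → ∀ f₀,
      IsMin V (Submodule.span k (Set.range e)) f₀ → ∃ᶠ s in atTop,
        (n + 1).factorial * finrank k (ch (Submodule.span k (Set.range e)) f₀ ⧸
          mx (Submodule.span k (Set.range e)) f₀ (hx V (Submodule.span k (Set.range e))) ^ s) ≤
          E * s ^ (n + 1))
    [Algebra.IsAlgebraic F K] (htr : Algebra.trdeg k F = ((n + 1 : ℕ) : Cardinal))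
    (g : Fin (n + 2) → F) {lam : K} (hlam : lam ≠ 0)
    (hg : ∀ j, algebraMap F K (g j) = aeval e (G j) / lam)
    (hbirF : Bir (Submodule.span k (Set.range g))) {v₀ : ValuationSubring F} (hv₀ : ZDim k v₀) :
    LDeg K v₀ (RV v₀ (Submodule.span k (Set.range g))) (q ^ (n + 1) * E) := by
  classical
  set H := Submodule.span k (Set.range e) with hH
  set P := Submodule.span k (Set.range g) with hP
  set T := Submodule.span k (Set.range fun j => aeval e (G j)) with hTdef
  have hB : Bpf (H ^ q) T := bpf_forms hG he hT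
  have hHfg : H.FG := by
    rw [hH]
    exact Submodule.fg_span (Set.finite_range e)
  have hH0 : H ≠ ⊥ := by
    obtain ⟨l, hl⟩ := he
    intro h
    have h1 : e l ∈ H := Submodule.subset_span ⟨l, rfl⟩
    rw [h, Submodule.mem_bot] at h1
    exact hl h1
  have hHm : IsModel H := ⟨hHfg, hH0⟩
  -- some `g j` is not zero
  have hgex : ∃ j, g j ≠ 0 := by
    by_contra hcon
    push Not at hcon
    apply hB.ne_bot
    rw [hTdef, Submodule.span_eq_bot]
    rintro _ ⟨j, rfl⟩
    have h1 := hg j
    rw [hcon j, map_zero] at h1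
    exact (div_eq_zero_iff.1 h1.symm).resolve_right hlam
  have hgj : ∀ j, aeval e (G j) = algebraMap F K (g j) * lam := fun j => by
    rw [hg j, div_mul_cancel₀ _ hlam]
  obtain ⟨j, hj⟩ := exists_min_gen (e := g) hv₀.ov hgex
  choose c hc using fun i => hv₀.res _ (hj.div (g i) (Submodule.subset_span ⟨i, rfl⟩))
  have hpt := pt_of_min g hbirF htr hv₀.ov hj c hc
  have hPm : IsModel P := ⟨Submodule.fg_span (Set.finite_range g), fun h => hj.ne (by
    have h1 := hj.mem
    rw [← hP, h, Submodule.mem_bot] at h1
    exact h1)⟩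
  have hcj : c j = 1 := by
    have h1 := hc j
    rw [div_self hj.ne, ← map_one (algebraMap k F), ← map_sub] at h1
    by_contra hne
    have h2 : (1 : k) - c j ≠ 0 := sub_ne_zero.2 (Ne.symm hne)
    have h3 := (v₀.valuation_le_one_iff _).2 (hv₀.ov ((1 : k) - c j)⁻¹)
    have h4 : v₀.valuation (algebraMap k F ((1 : k) - c j)) *
        v₀.valuation (algebraMap k F ((1 : k) - c j)⁻¹) = 1 := by
      rw [← map_mul, ← map_mul, mul_inv_cancel₀ h2, map_one, map_one]
    exact absurd h4 (ne_of_lt ((mul_le_of_le_one_right' h3).trans_lt h1))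
  refine ldeg_of_good hpt hq fun W hW => ?_
  have hWz : ZDim k W := zdim_of_comap (F := F) (by rw [hW]; exact hv₀)
  obtain ⟨l₀, hl₀⟩ := exists_min_gen hWz.ov he
  rw [← hH] at hl₀
  choose y hy using fun l => hWz.res _ (hl₀.div (e l) (Submodule.subset_span ⟨l, rfl⟩))
  -- `G_j(e)` is minimal in `H ^ q` for `W`
  have hGmin : IsMin W (upm K P) (algebraMap F K (g j)) := by
    rw [isMin_upm, hW]
    exact hj
  have hTmin : IsMin W T (aeval e (G j)) := by
    have h1 : (∀ x ∈ T, x / aeval e (G j) ∈ W) := by
      intro x hx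
      induction hx using Submodule.span_induction with
      | mem x hx =>
        obtain ⟨i, rfl⟩ := hx
        have h2 : aeval e (G i) / aeval e (G j) = algebraMap F K (g i) / algebraMap F K (g j) := by
          rw [hgj i, hgj j, mul_div_mul_right _ _ hlam]
        change aeval e (G i) / aeval e (G j) ∈ W
        rw [h2]
        exact hGmin.div _ (mem_upm.2 ⟨g i, Submodule.subset_span ⟨i, rfl⟩, rfl⟩)
      | zero => rw [zero_div]; exact W.zero_mem
      | add x y _ _ hx hy => rw [add_div]; exact W.add_mem _ _ hx hy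
      | smul a x _ hx => rw [smul_div_assoc]; exact hWz.ov.smul_mem a hx
    refine ⟨Submodule.subset_span ⟨j, rfl⟩, ?_, h1⟩
    rw [hgj j]
    exact mul_ne_zero hGmin.ne hlam
  have hHqmin : IsMin W (H ^ q) (aeval e (G j)) := hB.isMin hWz.ov hTmin
  have hO : locO W H (e l₀) = RV W (H ^ q) := by
    obtain ⟨q', rfl⟩ : ∃ q', q = q' + 1 := ⟨q - 1, by omega⟩
    rw [RV_pow hWz.ov hHm, RV_eq hl₀]
  have hOle : ∀ x ∈ locO W H (e l₀), x ∈ W := LU2.locV_mem (ch_le hWz.ov hl₀)
  -- the maximal ideal
  have hxm : ∀ h ∈ hx W H, ∀ (hh : h / e l₀ ∈ locO W H (e l₀)),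
      (⟨h / e l₀, hh⟩ : locO W H (e l₀)) ∈ mO W H (e l₀) := by
    intro h hh hh'
    have h1 : (⟨h / e l₀, div_mem_ch (hx_le hh)⟩ : ch H (e l₀)) ∈ mx H (e l₀) (hx W H) :=
      Ideal.subset_span ⟨h, hh, rfl⟩
    exact Ideal.mem_map_of_mem (Subalgebra.inclusion (LU2.le_locV (V := W) (ch H (e l₀)))) h1
  have hey : ∀ l, e l - y l • e l₀ ∈ hx W H := by
    intro l
    refine ⟨H.sub_mem (Submodule.subset_span ⟨l, rfl⟩) (H.smul_mem _ hl₀.mem),
      Or.inr ⟨e l₀, hl₀.mem, ?_⟩⟩
    have h1 : e l - y l • e l₀ = (e l / e l₀ - algebraMap k K (y l)) * e l₀ := by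
      rw [sub_mul, div_mul_cancel₀ _ hl₀.ne, Algebra.smul_def]
    have h2 : 0 < W.valuation (e l₀) := zero_lt_iff.2 ((Valuation.ne_zero_iff _).2 hl₀.ne)
    rw [h1, map_mul]
    calc W.valuation (e l / e l₀ - algebraMap k K (y l)) * W.valuation (e l₀)
        < 1 * W.valuation (e l₀) := mul_lt_mul_of_pos_right (hy l) h2
      _ = W.valuation (e l₀) := one_mul _
  have heO : ∀ l, e l / e l₀ ∈ locO W H (e l₀) := fun l =>
    LU2.le_locV _ (div_mem_ch (Submodule.subset_span ⟨l, rfl⟩))
  have heyO : ∀ l, e l / e l₀ - algebraMap k K (y l) ∈ locO W H (e l₀) := fun l =>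
    Subalgebra.sub_mem _ (heO l) (Subalgebra.algebraMap_mem _ _)
  have heym : ∀ l, (⟨e l / e l₀ - algebraMap k K (y l), heyO l⟩ : locO W H (e l₀)) ∈
      mO W H (e l₀) := by
    intro l
    have h1 : (e l - y l • e l₀) / e l₀ = e l / e l₀ - algebraMap k K (y l) := by
      rw [sub_div, Algebra.smul_def, mul_div_cancel_right₀ _ hl₀.ne]
    have h2 := hxm _ (hey l) (by rw [h1]; exact heyO l)
    have h3 : (⟨e l / e l₀ - algebraMap k K (y l), heyO l⟩ : locO W H (e l₀)) =
        ⟨(e l - y l • e l₀) / e l₀, by rw [h1]; exact heyO l⟩ := Subtype.ext h1.symm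
    rw [h3]
    exact h2
  -- elements of `hx` as combinations
  have hxspan : ∀ h ∈ hx W H, ∃ a : Fin (N + 1) → k,
      h / e l₀ = ∑ l, a l • (e l / e l₀ - algebraMap k K (y l)) := by
    intro h hh
    obtain ⟨a, ha⟩ := (Submodule.mem_span_range_iff_exists_fun k).1 hh.1
    refine ⟨a, ?_⟩
    have h1 : h / e l₀ = ∑ l, a l • (e l / e l₀ - algebraMap k K (y l)) +
        algebraMap k K (∑ l, a l * y l) := by
      rw [← ha, Finset.sum_div, map_sum, ← Finset.sum_add_distrib]
      refine Finset.sum_congr rfl fun l _ => ?_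
      rw [smul_div_assoc, Algebra.smul_def, Algebra.smul_def, map_mul]
      ring
    have h2 : W.valuation (h / e l₀) < 1 := by
      have h3 := mx_lt hl₀ hWz.ov (a := ⟨h / e l₀, div_mem_ch hh.1⟩)
        (Ideal.subset_span ⟨h, hh, rfl⟩)
      exact h3
    have h3 : W.valuation (∑ l, a l • (e l / e l₀ - algebraMap k K (y l))) < 1 := by
      refine W.valuation.map_sum_lt one_ne_zero fun l _ => ?_
      rw [Algebra.smul_def, map_mul]
      exact (mul_le_of_le_one_left' ((W.valuation_le_one_iff _).2 (hWz.ov _))).trans_lt (hy l)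
    have h4 : ∑ l, a l * y l = 0 := by
      by_contra hne
      have h5 : algebraMap k K (∑ l, a l * y l) = h / e l₀ -
          ∑ l, a l • (e l / e l₀ - algebraMap k K (y l)) := by rw [h1]; ring
      have h6 : W.valuation (algebraMap k K (∑ l, a l * y l)) < 1 := by
        rw [h5]
        exact (W.valuation.map_sub _ _).trans_lt (max_lt h2 h3)
      have h7 := (W.valuation_le_one_iff _).2 (hWz.ov (∑ l, a l * y l)⁻¹)
      have h8 : W.valuation (algebraMap k K (∑ l, a l * y l)) *
          W.valuation (algebraMap k K (∑ l, a l * y l)⁻¹) = 1 := by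
        rw [← map_mul, ← map_mul, mul_inv_cancel₀ hne, map_one, map_one]
      exact absurd h8 (ne_of_lt ((mul_le_of_le_one_right' h7).trans_lt h6))
    rw [h1, h4, map_zero, add_zero]
  -- residues of the coordinates
  have hres : ∀ i, eval y (G i) = c i * eval y (G j) := by
    intro i
    have h1 := val_form_sub_lt hG hWz.ov hl₀.ne hy i
    have h2 := val_form_sub_lt hG hWz.ov hl₀.ne hy j
    have h3 : W.valuation (algebraMap F K (g i / g j - algebraMap k F (c i))) < 1 := by
      rw [← comap_lt_one, hW]
      exact hc i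
    rw [map_sub, ← IsScalarTower.algebraMap_apply] at h3
    have h4 : algebraMap F K (g i / g j) = aeval e (G i) / aeval e (G j) := by
      rw [map_div₀, hgj i, hgj j, mul_div_mul_right _ _ hlam]
    rw [h4] at h3
    have hj0 : aeval e (G j) ≠ 0 := hTmin.ne
    by_contra hne
    have h5 : eval y (G i) - c i * eval y (G j) ≠ 0 := sub_ne_zero.2 hne
    have hjW : W.valuation (aeval e (G j) / e l₀ ^ q) ≤ 1 := by
      rw [W.valuation_le_one_iff]
      exact (hl₀.pow hWz.ov q).div _ hHqmin.mem
    have h6 : algebraMap k K (eval y (G i) - c i * eval y (G j)) =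
        -(aeval e (G i) / e l₀ ^ q - algebraMap k K (eval y (G i))) +
        ((aeval e (G i) / aeval e (G j) - algebraMap k K (c i)) * (aeval e (G j) / e l₀ ^ q) +
        algebraMap k K (c i) * (aeval e (G j) / e l₀ ^ q - algebraMap k K (eval y (G j)))) := by
      have h7 : aeval e (G i) / e l₀ ^ q =
          aeval e (G i) / aeval e (G j) * (aeval e (G j) / e l₀ ^ q) := by
        rw [div_mul_div_cancel₀ hj0]
      rw [map_sub, map_mul]
      rw [h7]
      ring
    have h7 : W.valuation (algebraMap k K (eval y (G i) - c i * eval y (G j))) < 1 := by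
      rw [h6]
      refine (W.valuation.map_add _ _).trans_lt (max_lt ?_
        ((W.valuation.map_add _ _).trans_lt (max_lt ?_ ?_)))
      · rw [Valuation.map_neg]; exact h1
      · rw [map_mul]; exact (mul_le_of_le_one_right' hjW).trans_lt h3
      · rw [map_mul]
        exact (mul_le_of_le_one_left' ((W.valuation_le_one_iff _).2 (hWz.ov _))).trans_lt h2
    have h8 := (W.valuation_le_one_iff _).2 (hWz.ov (eval y (G i) - c i * eval y (G j))⁻¹)
    have h9 : W.valuation (algebraMap k K (eval y (G i) - c i * eval y (G j))) *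
        W.valuation (algebraMap k K (eval y (G i) - c i * eval y (G j))⁻¹) = 1 := by
      rw [← map_mul, ← map_mul, mul_inv_cancel₀ h5, map_one, map_one]
    exact absurd h9 (ne_of_lt ((mul_le_of_le_one_right' h8).trans_lt h7))
  refine ⟨locO W H (e l₀), mO W H (e l₀), ?_, ?_, ?_, ?_, ?_, ?_⟩
  · -- mem
    intro x hx'
    have h1 : x ∈ NV W (H ^ q) := RV_le_NV (by rw [← hO]; exact hx')
    rw [NV_eq hHqmin, hB.chN_eq hTmin.mem hTmin.ne] at h1
    have h2 : ch T (aeval e (G j)) = ch (upm K P) (algebraMap F K (g j)) := by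
      refine le_antisymm (ch_le_iff.2 fun x hx => ?_) (ch_le_iff.2 fun x hx => ?_)
      · induction hx using Submodule.span_induction with
        | mem x hx =>
          obtain ⟨i, rfl⟩ := hx
          have h3 : aeval e (G i) / aeval e (G j) =
              algebraMap F K (g i) / algebraMap F K (g j) := by
            rw [hgj i, hgj j, mul_div_mul_right _ _ hlam]
          change aeval e (G i) / aeval e (G j) ∈ _
          rw [h3]
          exact div_mem_ch (mem_upm.2 ⟨g i, Submodule.subset_span ⟨i, rfl⟩, rfl⟩)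
        | zero => rw [zero_div]; exact Subalgebra.zero_mem _
        | add x y _ _ hx hy => rw [add_div]; exact Subalgebra.add_mem _ hx hy
        | smul a x _ hx => rw [smul_div_assoc]; exact Subalgebra.smul_mem _ hx a
      · obtain ⟨x', hx', rfl⟩ := mem_upm.1 hx
        clear hx
        induction hx' using Submodule.span_induction with
        | mem x hx =>
          obtain ⟨i, rfl⟩ := hx
          have h3 : algebraMap F K (g i) / algebraMap F K (g j) =
              aeval e (G i) / aeval e (G j) := by
            rw [hgj i, hgj j, mul_div_mul_right _ _ hlam]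
          rw [h3]
          exact div_mem_ch (Submodule.subset_span ⟨i, rfl⟩)
        | zero => rw [map_zero, zero_div]; exact Subalgebra.zero_mem _
        | add x y _ _ hx hy => rw [map_add, add_div]; exact Subalgebra.add_mem _ hx hy
        | smul a x _ hx =>
          have h3 : algebraMap F K (a • x) / algebraMap F K (g j) =
              a • (algebraMap F K x / algebraMap F K (g j)) := by
            rw [Algebra.smul_def, Algebra.smul_def, map_mul, ← IsScalarTower.algebraMap_apply,
              mul_div_assoc]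
          rw [h3]
          exact Subalgebra.smul_mem _ hx a
    rw [chN, h2] at h1
    have h3 : NV W (upm K P) = locV W (ncl (up K (RV v₀ P))) := by
      rw [NV_upm W hWz.ov hPm, hW]
    rw [← h3, NV_eq hGmin]
    exact h1
  · -- t_mem
    intro i
    rw [map_sub, ← IsScalarTower.algebraMap_apply, map_div₀, hO]
    refine Subalgebra.sub_mem _ ?_ (Subalgebra.algebraMap_mem _ _)
    have h4 : algebraMap F K (g (j.succAbove i)) / algebraMap F K (g j) =
        aeval e (G (j.succAbove i)) / aeval e (G j) := by
      rw [hgj, hgj j, mul_div_mul_right _ _ hlam]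
    rw [h4]
    exact div_mem_RV hHqmin (aeval_mem_pow' e (hG _))
  · -- gen
    rw [eq_top_iff]
    intro x _
    have h1 : (⊤ : IntermediateField k K) ≤
        (IntermediateField.adjoin F (locO W H (e l₀) : Set K)).restrictScalars k := by
      rw [← hbir, IntermediateField.adjoin_le_iff]
      rintro _ ⟨f, hf, h, hh, rfl⟩
      have h2 : h / f = (h / e l₀) / (f / e l₀) := by rw [div_div_div_cancel_right₀ hl₀.ne]
      rw [h2]
      have h3 : ∀ a ∈ H, a / e l₀ ∈ IntermediateField.adjoin F (locO W H (e l₀) : Set K) :=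
        fun a ha => IntermediateField.subset_adjoin F _ (LU2.le_locV _ (div_mem_ch ha))
      exact div_mem (h3 h hh) (h3 f hf)
    exact h1 (IntermediateField.mem_top (x := x))
  · -- lt
    intro w hw
    refine Submodule.span_induction (p := fun (w : locO W H (e l₀)) _ =>
      W.valuation (w : K) < 1) ?_ ?_ ?_ ?_ hw
    · rintro _ ⟨a, ha, rfl⟩
      exact mx_lt hl₀ hWz.ov ha
    · rw [ZeroMemClass.coe_zero, map_zero]; exact zero_lt_one
    · intro x y _ _ hx hy
      exact (W.valuation.map_add _ _).trans_lt (max_lt hx hy)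
    · intro a x _ hx
      change W.valuation ((a : K) * (x : K)) < 1
      rw [map_mul]
      exact (mul_le_of_le_one_left' ((W.valuation_le_one_iff _).2 (hOle _ a.2))).trans_lt hx
  · -- dim
    refine ⟨0, (hdim W hWz _ hl₀).mono fun s hs => ?_⟩
    obtain ⟨h1, h2⟩ := mO_quot hWz hHfg hl₀ s
    refine ⟨h1, ?_⟩
    rw [add_zero]
    exact (Nat.mul_le_mul_left _ h2).trans hs
  · -- good
    intro ω hω hOω h𝔪 ht w hw
    set γ := ω.valuation (algebraMap F K (g (j.succAbove 0) / g j -
      algebraMap k F (c (j.succAbove 0)))) with hγ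
    have hti : ∀ i, ω.valuation (aeval e (G i) / aeval e (G j) - algebraMap k K (c i)) ≤ γ := by
      intro i
      by_cases hij : i = j
      · rw [hij, div_self hTmin.ne, hcj, map_one, sub_self, map_zero]
        exact zero_le
      · obtain ⟨i', rfl⟩ := Fin.exists_succAbove_eq hij
        have h1 := ht i'
        have h2 : aeval e (G (j.succAbove i')) / aeval e (G j) - algebraMap k K
            (c (j.succAbove i')) = algebraMap F K (g (j.succAbove i') / g j -
              algebraMap k F (c (j.succAbove i'))) := by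
          rw [map_sub, ← IsScalarTower.algebraMap_apply, map_div₀, hgj, hgj j,
            mul_div_mul_right _ _ hlam]
        rw [h2]
        exact h1
    have hl : ∀ l, ω.valuation (e l / e l₀ - algebraMap k K (y l)) ^ q ≤ γ := by
      intro l
      obtain ⟨-, h1⟩ := hT ω hω l₀ hl₀.ne (fun l => hOω _ (heO l)) y
        (fun l => h𝔪 _ (heym l))
      obtain ⟨a, ha, h2⟩ := h1 l
      refine h2.trans ?_
      have hjω : ω.valuation (aeval e (G j) / e l₀ ^ q) ≤ 1 := by
        rw [ω.valuation_le_one_iff]
        refine hOω _ ?_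
        rw [hO]
        exact div_mem_RV (hl₀.pow hWz.ov q) hHqmin.mem
      have h3 : (∑ i, a i • aeval e (G i)) / e l₀ ^ q =
          (∑ i, a i • (aeval e (G i) / aeval e (G j) - algebraMap k K (c i))) *
            (aeval e (G j) / e l₀ ^ q) := by
        have h4 : ∑ i, a i * c i = 0 := by
          have hj0 : eval y (G j) ≠ 0 := by
            intro h5
            obtain ⟨⟨i, hi⟩, -⟩ := hT W hWz.ov l₀ hl₀.ne (fun l => hOle _ (heO l)) y hy
            rw [hres i, h5, mul_zero] at hi
            exact hi rfl
          have h5 : (∑ i, a i * c i) * eval y (G j) = 0 := by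
            rw [← ha, Finset.sum_mul]
            exact Finset.sum_congr rfl fun i _ => by rw [hres i]; ring
          exact (mul_eq_zero.1 h5).resolve_right hj0
        have h5 : ∑ i, a i • (aeval e (G i) / aeval e (G j) - algebraMap k K (c i)) =
            (∑ i, a i • aeval e (G i)) / aeval e (G j) := by
          have h6 : ∑ i, a i • (aeval e (G i) / aeval e (G j) - algebraMap k K (c i)) =
              (∑ i, a i • aeval e (G i)) / aeval e (G j) - algebraMap k K (∑ i, a i * c i) := by
            rw [Finset.sum_div, map_sum, ← Finset.sum_sub_distrib]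
            refine Finset.sum_congr rfl fun i _ => ?_
            rw [smul_sub, smul_div_assoc, Algebra.smul_def (a i) (algebraMap k K (c i)), map_mul]
          rw [h6, h4, map_zero, sub_zero]
        rw [h5, div_mul_div_cancel₀ hTmin.ne]
      rw [h3, map_mul]
      refine (mul_le_of_le_one_right' hjω).trans (ω.valuation.map_sum_le fun i _ => ?_)
      rw [Algebra.smul_def, map_mul]
      exact (mul_le_of_le_one_left' ((ω.valuation_le_one_iff _).2 (hω _))).trans (hti i)
    -- the set of good elements is an ideal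
    have hadd : ∀ a b : K, ω.valuation a ^ q ≤ γ → ω.valuation b ^ q ≤ γ →
        ω.valuation (a + b) ^ q ≤ γ := by
      intro a b ha hb
      rcases le_total (ω.valuation a) (ω.valuation b) with h | h
      · exact (pow_le_pow_left' ((ω.valuation.map_add _ _).trans (max_le h le_rfl)) q).trans hb
      · exact (pow_le_pow_left' ((ω.valuation.map_add _ _).trans (max_le le_rfl h)) q).trans ha
    have hzero : ω.valuation (0 : K) ^ q ≤ γ := by
      rw [map_zero, zero_pow hq.ne']; exact zero_le
    have hmul : ∀ a b : K, a ∈ ω → ω.valuation b ^ q ≤ γ → ω.valuation (a * b) ^ q ≤ γ := by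
      intro a b ha hb
      rw [map_mul, mul_pow]
      exact (mul_le_of_le_one_left' (pow_le_one' ((ω.valuation_le_one_iff _).2 ha) q)).trans hb
    refine Submodule.span_induction (p := fun (w : locO W H (e l₀)) _ =>
      ω.valuation (w : K) ^ q ≤ γ) ?_ ?_ ?_ ?_ hw
    · rintro _ ⟨a, ha, rfl⟩
      refine Submodule.span_induction (p := fun (a : ch H (e l₀)) _ =>
        ω.valuation (a : K) ^ q ≤ γ) ?_ ?_ ?_ ?_ ha
      · rintro a ⟨h, hh, hah⟩
        rw [hah]
        obtain ⟨b, hb⟩ := hxspan h hh
        rw [hb]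
        have h5 : ∀ s : Finset (Fin (N + 1)), ω.valuation (∑ l ∈ s, b l •
            (e l / e l₀ - algebraMap k K (y l))) ^ q ≤ γ := by
          intro s
          induction s using Finset.induction_on with
          | empty => rw [Finset.sum_empty]; exact hzero
          | insert x s hx ih =>
            rw [Finset.sum_insert hx]
            refine hadd _ _ ?_ ih
            rw [Algebra.smul_def]
            exact hmul _ _ (hω _) (hl x)
        exact h5 _
      · exact hzero
      · intro x y _ _ hx hy
        exact hadd _ _ hx hy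
      · intro a x _ hx
        exact hmul _ _ (hOω _ (LU2.le_locV _ a.2)) hx
    · exact hzero
    · intro x y _ _ hx hy
      exact hadd _ _ hx hy
    · intro a x _ hx
      exact hmul _ _ (hOω _ a.2) hx

end Main

end Pool.Agent.TGC56
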