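import Pool.Agent.Lib.TG_h80.HH
import Mathlib

/-!
# TANK G, section C: valuations over the order valuation

`y_0 .. y_n ∈ N` algebraically independent over `k`, `N` algebraic over `k (y)`.
`exists_ord`: there is a valuation ring `V ⊇ k` of `N` with `v (a (y)) ≥ γ ^ m` for the polynomials
`a ≠ 0` of degree `≤ m`, `v (y_i) ≤ v (y_0) = γ < 1`; `exists_pow_le`: it is archimedean over `γ`;
`val_aeval_lt_one_iff`: values of polynomials; `mem_adjoin_of_isIntegral`: the polynomial ring is
integrally closed.
-/

set_option autoImplicit false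

namespace Pool.Agent.TGC56

open Module MvPolynomial
open scoped IntermediateField.algebraAdjoinAdjoin

universe u

section OrdExt

variable {k N : Type u} [Field k] [Field N] [Algebra k N]

theorem isAlgebraic_mono {A B : Subalgebra k N} (h : A ≤ B) [hA : Algebra.IsAlgebraic A N] :
    Algebra.IsAlgebraic B N := by
  refine ⟨fun x => ?_⟩
  let _ : Algebra A B := (Subalgebra.inclusion h).toAlgebra
  have : IsScalarTower A B N := IsScalarTower.of_algebraMap_eq fun _ => rfl
  exact (hA.isAlgebraic x).extendScalars (Subalgebra.inclusion_injective h)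

/-- `y_0` and the `y_i / y_0` are algebraically independent. -/
theorem indep_quot {n : ℕ} (y : Fin (n + 1) → N) (hy : AlgebraicIndependent k y)
    [halg : Algebra.IsAlgebraic (Algebra.adjoin k (Set.range y)) N] :
    AlgebraicIndependent k (fun o : Option (Fin n) => o.elim (y 0) fun i => y i.succ / y 0) := by
  set x : Option (Fin n) → N := fun o => o.elim (y 0) fun i => y i.succ / y 0 with hx
  have hy0 : y 0 ≠ 0 := hy.ne_zero 0
  have hle : Algebra.adjoin k (Set.range y) ≤ Algebra.adjoin k (Set.range x) := by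
    refine Algebra.adjoin_le ?_
    rintro _ ⟨i, rfl⟩
    have h0 : y 0 ∈ Algebra.adjoin k (Set.range x) := Algebra.subset_adjoin ⟨none, rfl⟩
    refine Fin.cases h0 (fun i => ?_) i
    have h1 : y i.succ / y 0 ∈ Algebra.adjoin k (Set.range x) :=
      Algebra.subset_adjoin ⟨some i, rfl⟩
    have h2 := mul_mem h1 h0
    rwa [div_mul_cancel₀ _ hy0] at h2
  have := isAlgebraic_mono hle
  have hb : IsTranscendenceBasis k y := hy.isTranscendenceBasis_iff_isAlgebraic.2 halg
  have hc := hb.lift_cardinalMk_eq_trdeg
  refine (Algebra.IsAlgebraic.isTranscendenceBasis_of_lift_le_trdeg_of_finite k x ?_).1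
  rw [← hc]
  simp

/-- forms -/
theorem aeval_form {n : ℕ} (c : N) (x : Fin n → N) {e : ℕ} (a : MvPolynomial (Fin n) k)
    (ha : a.IsHomogeneous e) : aeval (fun i => c * x i) a = c ^ e * aeval x a := by
  classical
  rw [aeval_def, aeval_def, eval₂_eq', eval₂_eq', Finset.mul_sum]
  refine Finset.sum_congr rfl fun s hs => ?_
  have h1 : s.degree = e := by
    by_contra h
    exact (mem_support_iff.1 hs) (ha.coeff_eq_zero h)
  have h2 : ∏ i, (c * x i) ^ s i = c ^ e * ∏ i, x i ^ s i := by
    rw [← h1, Finsupp.degree_eq_sum, ← Finset.prod_pow_eq_pow_sum, ← Finset.prod_mul_distrib]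
    exact Finset.prod_congr rfl fun i _ => mul_pow _ _ _
  rw [h2]
  ring

/-- **Valuations over the order valuation.** -/
theorem exists_ord {n : ℕ} (y : Fin (n + 1) → N) (hy : AlgebraicIndependent k y)
    [halg : Algebra.IsAlgebraic (Algebra.adjoin k (Set.range y)) N] :
    ∃ V : ValuationSubring N, (∀ c : k, algebraMap k N c ∈ V) ∧ V.valuation (y 0) < 1 ∧
      (∀ i, V.valuation (y i) ≤ V.valuation (y 0)) ∧
      (∀ (m : ℕ) (a : MvPolynomial (Fin (n + 1)) k), a ≠ 0 → a.totalDegree ≤ m →
        V.valuation (y 0) ^ m ≤ V.valuation (aeval y a)) := by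
  classical
  set u : Fin n → N := fun i => y i.succ / y 0 with hu
  have hind := indep_quot y hy
  have hy0 : y 0 ≠ 0 := hy.ne_zero 0
  obtain ⟨hindu, htr⟩ := AlgebraicIndependent.option_iff.1 hind
  -- the field `κ = k(u)`
  let U : Subalgebra k N := Algebra.adjoin k (Set.range u)
  let κ : IntermediateField k N := IntermediateField.adjoin k (Set.range u)
  have htrκ : Transcendental κ (y 0) := by
    intro h
    exact htr ((IsFractionRing.isAlgebraic_iff U κ N).2 h)
  let A : Subalgebra κ N := Algebra.adjoin κ {y 0}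
  let y0A : A := ⟨y 0, Algebra.subset_adjoin (Set.mem_singleton _)⟩
  have hI : Ideal.span {y0A} ≠ (⊤ : Ideal A) := by
    intro h
    rw [Ideal.eq_top_iff_one, Ideal.mem_span_singleton'] at h
    obtain ⟨a, ha⟩ := h
    obtain ⟨q, hq⟩ : ∃ q : Polynomial κ, Polynomial.aeval (y 0) q = (a : N) := by
      have h1 : (a : N) ∈ Algebra.adjoin κ {y 0} := a.2
      rw [Algebra.adjoin_singleton_eq_range_aeval] at h1
      exact h1
    have h2 : Polynomial.aeval (y 0) (q * Polynomial.X - 1) = 0 := by
      rw [map_sub, map_mul, Polynomial.aeval_X, hq, map_one, sub_eq_zero]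
      exact congrArg Subtype.val ha
    have h3 := (transcendental_iff.1 htrκ) _ h2
    have h4 := congrArg (Polynomial.eval 0) h3
    simp at h4
  obtain ⟨V, hAV, hIV⟩ := Ideal.image_subset_nonunits_valuationSubring
    (A := A.toSubring) (Ideal.span {y0A}) hI
  have hγ1 : V.valuation (y 0) < 1 := by
    rw [← V.mem_nonunits_iff]
    exact hIV ⟨y0A, Ideal.subset_span (Set.mem_singleton _), rfl⟩
  have hγ0 : V.valuation (y 0) ≠ 0 := (Valuation.ne_zero_iff _).2 hy0
  have hκV : ∀ x ∈ κ, x ∈ V := fun x hx => hAV (A.algebraMap_mem ⟨x, hx⟩)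
  have hκ1 : ∀ x ∈ κ, x ≠ 0 → V.valuation x = 1 := by
    intro x hx h0
    refine le_antisymm ((V.valuation_le_one_iff x).2 (hκV x hx)) ?_
    have h1 := (V.valuation_le_one_iff _).2 (hκV _ (κ.inv_mem hx))
    rw [map_inv₀] at h1
    exact (inv_le_one₀ (zero_lt_iff.2 ((Valuation.ne_zero_iff _).2 h0))).1 h1
  have huκ : ∀ i, u i ∈ κ := fun i => IntermediateField.subset_adjoin k _ ⟨i, rfl⟩
  refine ⟨V, fun c => hκV _ (κ.algebraMap_mem c), hγ1, ?_, ?_⟩
  · refine Fin.cases le_rfl fun i => ?_
    have h1 : y i.succ = u i * y 0 := (div_mul_cancel₀ _ hy0).symm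
    rw [h1, map_mul]
    exact mul_le_of_le_one_left' ((V.valuation_le_one_iff _).2 (hκV _ (huκ i)))
  · intro m a ha hdeg
    let u' : Fin (n + 1) → N := Fin.cons 1 u
    have hu'κ : ∀ i, u' i ∈ κ := by
      refine Fin.cases ?_ fun i => ?_
      · exact κ.one_mem
      · exact huκ i
    have hyu : y = fun i => y 0 * u' i := by
      funext i
      refine Fin.cases ?_ (fun i => ?_) i
      · change y 0 = y 0 * 1
        rw [mul_one]
      · change y i.succ = y 0 * (y i.succ / y 0)
        rw [mul_div_cancel₀ _ hy0]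
    have hκa : ∀ b : MvPolynomial (Fin (n + 1)) k, aeval u' b ∈ κ := by
      intro b
      have h1 : aeval u' b = ((aeval (fun i => (⟨u' i, hu'κ i⟩ : κ)) b : κ) : N) := by
        have h2 := aeval_algebraMap_apply N (fun i => (⟨u' i, hu'κ i⟩ : κ)) b
        exact h2
      rw [h1]
      exact SetLike.coe_mem _
    have hform : ∀ (e : ℕ) (b : MvPolynomial (Fin (n + 1)) k), b.IsHomogeneous e →
        aeval y b = y 0 ^ e * aeval u' b := by
      intro e b hb
      conv_lhs => rw [hyu]
      exact aeval_form (y 0) u' b hb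
    have hle : ∀ (e : ℕ) (b : MvPolynomial (Fin (n + 1)) k), b.IsHomogeneous e →
        V.valuation (aeval y b) ≤ V.valuation (y 0) ^ e := by
      intro e b hb
      rw [hform e b hb, map_mul, map_pow]
      exact mul_le_of_le_one_right' ((V.valuation_le_one_iff _).2 (hκV _ (hκa b)))
    have heq : ∀ (e : ℕ) (b : MvPolynomial (Fin (n + 1)) k), b.IsHomogeneous e → b ≠ 0 →
        V.valuation (aeval y b) = V.valuation (y 0) ^ e := by
      intro e b hb hb0
      have h1 : aeval y b ≠ 0 := fun h => hb0 (hy.eq_zero_of_aeval_eq_zero b h)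
      have h2 : aeval u' b ≠ 0 := by
        intro h
        rw [hform e b hb, h, mul_zero] at h1
        exact h1 rfl
      rw [hform e b hb, map_mul, map_pow, hκ1 _ (hκa b) h2, mul_one]
    have hex : ∃ e, homogeneousComponent e a ≠ 0 := by
      by_contra h
      push Not at h
      apply ha
      rw [← sum_homogeneousComponent a]
      exact Finset.sum_eq_zero fun e _ => h e
    let d := Nat.find hex
    have hd : homogeneousComponent d a ≠ 0 := Nat.find_spec hex
    have hmin : ∀ e < d, homogeneousComponent e a = 0 := fun e he => by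
      by_contra h
      exact Nat.find_min hex he h
    have hda : d ≤ a.totalDegree := by
      by_contra h
      exact hd (homogeneousComponent_eq_zero _ _ (not_le.1 h))
    have hsum : aeval y a = aeval y (homogeneousComponent d a) +
        ∑ e ∈ (Finset.range (a.totalDegree + 1)).erase d, aeval y (homogeneousComponent e a) := by
      conv_lhs => rw [← sum_homogeneousComponent a, map_sum]
      exact (Finset.add_sum_erase _ _ (Finset.mem_range.2 (Nat.lt_succ_of_le hda))).symm
    have hrest : V.valuation (∑ e ∈ (Finset.range (a.totalDegree + 1)).erase d,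
        aeval y (homogeneousComponent e a)) < V.valuation (y 0) ^ d := by
      refine V.valuation.map_sum_lt (pow_ne_zero _ hγ0) fun e he => ?_
      rcases lt_trichotomy e d with h | h | h
      · rw [hmin e h, map_zero, map_zero]
        exact zero_lt_iff.2 (pow_ne_zero _ hγ0)
      · exact absurd h (Finset.ne_of_mem_erase he)
      · exact (hle e _ (homogeneousComponent_isHomogeneous e a)).trans_lt
          (pow_lt_pow_right_of_lt_one₀ (zero_lt_iff.2 hγ0) hγ1 h)
    rw [← heq d _ (homogeneousComponent_isHomogeneous d a) hd] at hrest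
    rw [hsum, V.valuation.map_add_eq_of_lt_left hrest,
      heq d _ (homogeneousComponent_isHomogeneous d a) hd]
    exact pow_le_pow_right_of_le_one' hγ1.le (hda.trans hdeg)

/-- The valuation is archimedean over its values on the polynomials. -/
theorem exists_pow_le {n : ℕ} (y : Fin (n + 1) → N)
    [halg : Algebra.IsAlgebraic (Algebra.adjoin k (Set.range y)) N] (V : ValuationSubring N)
    (hV : ∀ c : k, algebraMap k N c ∈ V) (hy : ∀ i, y i ∈ V) {γ : V.ValueGroup}
    (hord : ∀ (m : ℕ) (a : MvPolynomial (Fin (n + 1)) k), a ≠ 0 → a.totalDegree ≤ m →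
        γ ^ m ≤ V.valuation (aeval y a)) (Δ : N) (hΔ : Δ ≠ 0) :
    ∃ c : ℕ, γ ^ c ≤ V.valuation Δ := by
  classical
  rcases le_total 1 (V.valuation Δ) with h1 | h1
  · exact ⟨0, by rwa [pow_zero]⟩
  obtain ⟨q, hq0, hq⟩ := (halg.isAlgebraic Δ).exists_nonzero_coeff_and_aeval_eq_zero
    (mem_nonZeroDivisors_of_ne_zero hΔ)
  have hadj : ∀ x ∈ Algebra.adjoin k (Set.range y), x ∈ V := by
    intro x hx
    induction hx using Algebra.adjoin_induction with
    | mem x hx =>
      obtain ⟨i, rfl⟩ := hx
      exact hy i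
    | algebraMap r => exact hV r
    | add x y _ _ hx hy => exact V.add_mem _ _ hx hy
    | mul x y _ _ hx hy => exact V.mul_mem _ _ hx hy
  have hΔV : Δ ∈ V := (V.valuation_le_one_iff _).1 h1
  have hev : ∀ r : Polynomial (Algebra.adjoin k (Set.range y)), Polynomial.aeval Δ r ∈ V := by
    intro r
    rw [Polynomial.aeval_eq_sum_range]
    refine sum_mem fun i _ => ?_
    rw [Algebra.smul_def]
    exact V.mul_mem _ _ (hadj _ (r.coeff i).2) (pow_mem hΔV i)
  obtain ⟨a, ha⟩ : ∃ a : MvPolynomial (Fin (n + 1)) k, aeval y a = ((q.coeff 0 : _) : N) := by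
    have h2 : ((q.coeff 0 : _) : N) ∈ (MvPolynomial.aeval (R := k) y).range := by
      rw [← Algebra.adjoin_range_eq_range_aeval]
      exact (q.coeff 0).2
    exact h2
  have ha0 : a ≠ 0 := by
    rintro rfl
    rw [map_zero] at ha
    exact hq0 (Subtype.ext ha.symm)
  refine ⟨a.totalDegree, (hord _ a ha0 le_rfl).trans ?_⟩
  have h3 : ((q.coeff 0 : _) : N) = -(Δ * Polynomial.aeval Δ q.divX) := by
    have h4 := congrArg (Polynomial.aeval Δ) q.X_mul_divX_add
    rw [hq, map_add, map_mul, Polynomial.aeval_X, Polynomial.aeval_C] at h4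
    exact (eq_neg_of_add_eq_zero_right h4)
  rw [ha, h3, Valuation.map_neg, map_mul]
  exact mul_le_of_le_one_right' ((V.valuation_le_one_iff _).2 (hev _))

/-- values of polynomials at elements of the maximal ideal -/
theorem val_aeval_lt_one_iff {ω : ValuationSubring N} (hω : ∀ c : k, algebraMap k N c ∈ ω) {n : ℕ}
    {t : Fin n → N} (ht : ∀ i, ω.valuation (t i) < 1) (a : MvPolynomial (Fin n) k) :
    ω.valuation (aeval t a) < 1 ↔ constantCoeff a = 0 := by
  have h1 : ω.valuation (aeval t a - algebraMap k N (constantCoeff a)) < 1 := by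
    induction a using MvPolynomial.induction_on with
    | C c =>
      rw [aeval_C, constantCoeff_C, sub_self, map_zero]
      exact zero_lt_one
    | add p q hp hq =>
      have h2 : aeval t (p + q) - algebraMap k N (constantCoeff (p + q)) =
          (aeval t p - algebraMap k N (constantCoeff p)) +
            (aeval t q - algebraMap k N (constantCoeff q)) := by
        rw [map_add, map_add, map_add]; ring
      rw [h2]
      exact (ω.valuation.map_add _ _).trans_lt (max_lt hp hq)
    | mul_X p i hp =>
      have h2 : aeval t (p * X i) - algebraMap k N (constantCoeff (p * X i)) =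
          aeval t p * t i := by
        rw [map_mul, map_mul, constantCoeff_X, mul_zero, map_zero, sub_zero, aeval_X]
      have h3 : ω.valuation (aeval t p) ≤ 1 := by
        have h4 : aeval t p = (aeval t p - algebraMap k N (constantCoeff p)) +
            algebraMap k N (constantCoeff p) := by ring
        rw [h4]
        exact (ω.valuation.map_add _ _).trans
          (max_le hp.le ((ω.valuation_le_one_iff _).2 (hω _)))
      rw [h2, map_mul]
      exact (mul_le_of_le_one_left' h3).trans_lt (ht i)
  constructor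
  · intro h2
    by_contra hc
    have h3 : algebraMap k N (constantCoeff a) = aeval t a -
        (aeval t a - algebraMap k N (constantCoeff a)) := by ring
    have h4 : ω.valuation (algebraMap k N (constantCoeff a)) < 1 := by
      rw [h3]
      exact (ω.valuation.map_sub _ _).trans_lt (max_lt h2 h1)
    have h5 : ω.valuation (algebraMap k N (constantCoeff a)⁻¹) ≤ 1 :=
      (ω.valuation_le_one_iff _).2 (hω _)
    have h6 : ω.valuation (algebraMap k N (constantCoeff a)) *
        ω.valuation (algebraMap k N (constantCoeff a)⁻¹) = 1 := by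
      rw [← map_mul, ← map_mul, mul_inv_cancel₀ hc, map_one, map_one]
    exact absurd h6 (ne_of_lt ((mul_le_of_le_one_right' h5).trans_lt h4))
  · intro hc
    rwa [hc, map_zero, sub_zero] at h1

/-- the polynomial ring is integrally closed -/
theorem mem_adjoin_of_isIntegral {n : ℕ} {t : Fin n → N} (ht : AlgebraicIndependent k t)
    (hF : ∀ x : N, ∃ a ∈ Algebra.adjoin k (Set.range t), ∃ b ∈ Algebra.adjoin k (Set.range t),
      x = a / b) {x : N} (hx : IsIntegral (Algebra.adjoin k (Set.range t)) x) :
    x ∈ Algebra.adjoin k (Set.range t) := by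
  have h1 : IsIntegrallyClosed (Algebra.adjoin k (Set.range t)) :=
    IsIntegrallyClosed.of_equiv ht.aevalEquiv.toRingEquiv
  have h2 : IsFractionRing (Algebra.adjoin k (Set.range t)) N :=
    .of_field _ _ fun x => by
      obtain ⟨a, ha, b, hb, h⟩ := hF x
      exact ⟨⟨a, ha⟩, ⟨b, hb⟩, h⟩
  obtain ⟨y, hy⟩ := (IsIntegrallyClosed.isIntegral_iff
    (R := Algebra.adjoin k (Set.range t)) (K := N)).1 hx
  rw [← hy]
  exact y.2

end OrdExt

end Pool.Agent.TGC56
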