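import Pool.Agent.Lib.TG_h56.Count
import Pool.Agent.Lib.TG_h56.OrdExt

/-!
# TANK G, section C: bounds for local degrees at all points

`R` is the local ring at the origin of `k[t_0 .. t_n]`, `M / F` an extension of `F = k(t)`.
`ldeg_of_good`: if at every point of `M` over the origin there is a local ring `O ∋ t_i` (a
`k`-subalgebra in the local ring of the normalisation which generates `M`, with an ideal `𝔪`) with
`(n + 1)! dim O / 𝔪 ^ s ≤ E (s + c) ^ (n + 1)` for infinitely many `s` and
`q ω(w) ≥ ω(t)` for all `w ∈ 𝔪` and all valuations `ω` with the same centre for which all the `t_i`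
have values `≥ ω(t_0)`, then the local degrees of `M / F` over `R` are `≤ q ^ (n + 1) E`.
-/

set_option autoImplicit false

namespace Pool.Agent.TGC56

open Module MvPolynomial
open Pool.Agent.TG
open Pool.Agent.LU2 (locV)

universe u

section Points

variable {k F N : Type u} [Field k] [Field F] [Field N] [Algebra k F] [Algebra k N] [Algebra F N]
  [IsScalarTower k F N]

/-- `R` is the local ring of `k[t]` at the origin, `F = k(t)`, `v₀` is centred at the origin. -/
structure Pt (v₀ : ValuationSubring F) (R : Subalgebra k F) {n : ℕ} (t : Fin n → F) : Prop where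
  ov : Ov k v₀
  ind : AlgebraicIndependent k t
  frac : ∀ x : F, ∃ a ∈ Algebra.adjoin k (Set.range t), ∃ b ∈ Algebra.adjoin k (Set.range t),
    x = a / b
  lt : ∀ i, v₀.valuation (t i) < 1
  eq : R = locV v₀ (Algebra.adjoin k (Set.range t))

/-- the centre of a valuation ring as an ideal -/
def cenI (B : Subring N) (V : ValuationSubring N) (h : ∀ b ∈ B, b ∈ V) : Ideal B where
  carrier := {b | V.valuation (b : N) < 1}
  add_mem' := fun ha hb => (V.valuation.map_add _ _).trans_lt (max_lt ha hb)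
  zero_mem' := by
    change V.valuation ((0 : B) : N) < 1
    rw [ZeroMemClass.coe_zero, map_zero]
    exact zero_lt_one
  smul_mem' := fun c {x} hx => by
    change V.valuation (((c * x : B) : N)) < 1
    rw [MulMemClass.coe_mul, map_mul]
    exact (mul_le_of_le_one_left' ((V.valuation_le_one_iff _).2 (h c c.2))).trans_lt hx

theorem mem_cenI {B : Subring N} {V : ValuationSubring N} {h : ∀ b ∈ B, b ∈ V} {b : B} :
    b ∈ cenI B V h ↔ V.valuation (b : N) < 1 := Iff.rfl

theorem cenI_isPrime (B : Subring N) (V : ValuationSubring N) (h : ∀ b ∈ B, b ∈ V) :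
    (cenI B V h).IsPrime := by
  refine ⟨?_, ?_⟩
  · intro ht
    have h1 : (1 : B) ∈ cenI B V h := by rw [ht]; exact Submodule.mem_top
    rw [mem_cenI, OneMemClass.coe_one, map_one] at h1
    exact lt_irrefl _ h1
  · intro a b hab
    rw [mem_cenI, MulMemClass.coe_mul, map_mul] at hab
    rw [mem_cenI, mem_cenI]
    by_contra hcon
    push Not at hcon
    have ha : V.valuation (a : N) = 1 :=
      le_antisymm ((V.valuation_le_one_iff _).2 (h a a.2)) hcon.1
    have hb : V.valuation (b : N) = 1 :=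
      le_antisymm ((V.valuation_le_one_iff _).2 (h b b.2)) hcon.2
    rw [ha, hb, one_mul] at hab
    exact lt_irrefl _ hab

/-- `R` is integrally closed. -/
theorem Pt.integral {v₀ : ValuationSubring F} {R : Subalgebra k F} {n : ℕ} {t : Fin n → F}
    (hpt : Pt v₀ R t) {x : F} (hx : IsIntegral R x) : x ∈ R := by
  have h1 : x ∈ locV v₀ (ncl (locV v₀ (Algebra.adjoin k (Set.range t)))) := by
    refine LU2.le_locV _ ?_
    rw [← hpt.eq]
    exact hx
  rw [locV_ncl_locV] at h1
  rw [hpt.eq]
  refine LU2.locV_mono (fun a ha => ?_) h1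
  exact mem_adjoin_of_isIntegral hpt.ind hpt.frac ha

theorem aeval_comp {n : ℕ} (t : Fin n → F) (a : MvPolynomial (Fin n) k) :
    aeval (fun i => algebraMap F N (t i)) a = algebraMap F N (aeval t a) := by
  have h2 := MvPolynomial.aeval_algebraMap_apply (B := N) t a
  rw [← h2]
  rfl

/-- The elements of `R` in the centre. -/
theorem Pt.lt_one_iff {v₀ : ValuationSubring F} {R : Subalgebra k F} {n : ℕ} {t : Fin n → F}
    (hpt : Pt v₀ R t) {x : F} (hx : x ∈ R) (V : ValuationSubring N)
    (hV : ∀ c : k, algebraMap k N c ∈ V) (ht : ∀ i, V.valuation (algebraMap F N (t i)) < 1) :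
    (V.valuation (algebraMap F N x) < 1 ↔ v₀.valuation x < 1) ∧ algebraMap F N x ∈ V := by
  rw [hpt.eq] at hx
  obtain ⟨a', ha, b', hb, h1, rfl⟩ := hx
  rw [Algebra.adjoin_range_eq_range_aeval] at ha hb
  obtain ⟨a, rfl⟩ : ∃ a, aeval t a = a' := ha
  obtain ⟨b, rfl⟩ : ∃ b, aeval t b = b' := hb
  have hb0 : constantCoeff b ≠ 0 := by
    intro h
    have h2 := (val_aeval_lt_one_iff (N := F) hpt.ov hpt.lt b).2 h
    exact absurd h1 (ne_of_lt h2)
  have hVle : ∀ c : MvPolynomial (Fin n) k,
      V.valuation (aeval (fun i => algebraMap F N (t i)) c) ≤ 1 := by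
    intro c
    rw [V.valuation_le_one_iff]
    induction c using MvPolynomial.induction_on with
    | C c => rw [aeval_C]; exact hV c
    | add p q hp hq => rw [map_add]; exact V.add_mem _ _ hp hq
    | mul_X p i hp =>
      rw [map_mul, aeval_X]
      exact V.mul_mem _ _ hp ((V.valuation_le_one_iff _).1 (ht i).le)
  have hbV : V.valuation (algebraMap F N (aeval t b)) = 1 := by
    rw [← aeval_comp (N := N)]
    refine le_antisymm (hVle b) ?_
    by_contra h
    push Not at h
    exact hb0 ((val_aeval_lt_one_iff hV ht b).1 h)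
  constructor
  · rw [map_div₀, map_div₀, hbV, div_one]
    rw [map_div₀, h1, div_one, ← aeval_comp (N := N), val_aeval_lt_one_iff hV ht,
      val_aeval_lt_one_iff (N := F) hpt.ov hpt.lt]
  · rw [map_div₀]
    rw [← V.valuation_le_one_iff, map_div₀, hbV, div_one]
    have h3 := hVle a
    rw [aeval_comp] at h3
    exact h3

/-- **Valuations over the order valuation, with a given centre.** -/
theorem Pt.exists_ord {v₀ : ValuationSubring F} {R : Subalgebra k F} {n : ℕ}
    {t : Fin (n + 1) → F} (hpt : Pt v₀ R t) [FiniteDimensional F N] [IsGalois F N]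
    (W : ValuationSubring N) (hW : W.comap (algebraMap F N) = v₀) :
    ∃ (Γ : Type u) (_ : LinearOrderedCommGroupWithZero Γ) (v : Valuation N Γ),
      (∀ c : k, v (algebraMap k N c) ≤ 1) ∧ v (algebraMap F N (t 0)) < 1 ∧
      (∀ i, v (algebraMap F N (t i)) ≤ v (algebraMap F N (t 0))) ∧
      (∀ (m : ℕ) (a : MvPolynomial (Fin (n + 1)) k), a ≠ 0 → a.totalDegree ≤ m →
        v (algebraMap F N (t 0)) ^ m ≤ v (aeval (fun i => algebraMap F N (t i)) a)) ∧
      (∀ Δ : N, Δ ≠ 0 → ∃ c : ℕ, v (algebraMap F N (t 0)) ^ c ≤ v Δ) ∧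
      ∀ a ∈ ncl (up N R), v a ≤ 1 ∧ (v a < 1 ↔ W.valuation a < 1) := by
  classical
  have hy : AlgebraicIndependent k (fun i => algebraMap F N (t i)) :=
    hpt.ind.map' (f := IsScalarTower.toAlgHom k F N) (algebraMap F N).injective
  -- `N` is algebraic over `k[t]`
  have halg : Algebra.IsAlgebraic (Algebra.adjoin k (Set.range fun i => algebraMap F N (t i)))
      N := by
    refine ⟨fun x => ?_⟩
    have h2 : IsFractionRing (Algebra.adjoin k (Set.range t)) F :=
      .of_field _ _ fun x => by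
        obtain ⟨a, ha, b, hb, h⟩ := hpt.frac x
        exact ⟨⟨a, ha⟩, ⟨b, hb⟩, h⟩
    have h3 : IsAlgebraic (Algebra.adjoin k (Set.range t)) x :=
      (IsFractionRing.isAlgebraic_iff (Algebra.adjoin k (Set.range t)) F N).2
        (Algebra.IsAlgebraic.isAlgebraic x)
    obtain ⟨p, hp0, hp⟩ := h3
    have hmem : ∀ a ∈ Algebra.adjoin k (Set.range t), algebraMap F N a ∈
        Algebra.adjoin k (Set.range fun i => algebraMap F N (t i)) := by
      intro a ha
      induction ha using Algebra.adjoin_induction with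
      | mem x hx =>
        obtain ⟨i, rfl⟩ := hx
        exact Algebra.subset_adjoin ⟨i, rfl⟩
      | algebraMap r =>
        rw [← IsScalarTower.algebraMap_apply]
        exact Subalgebra.algebraMap_mem _ r
      | add x y _ _ hx hy => rw [map_add]; exact add_mem hx hy
      | mul x y _ _ hx hy => rw [map_mul]; exact mul_mem hx hy
    let f : Algebra.adjoin k (Set.range t) →+*
        Algebra.adjoin k (Set.range fun i => algebraMap F N (t i)) :=
      ((algebraMap F N).comp (Algebra.adjoin k (Set.range t)).toSubring.subtype).codRestrict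
        (Algebra.adjoin k (Set.range fun i => algebraMap F N (t i))).toSubring
        fun a => hmem a a.2
    have hf : ∀ a, ((f a : _) : N) = algebraMap F N (a : F) := fun a => rfl
    have hfinj : Function.Injective f := by
      intro a b hab
      apply Subtype.ext
      apply (algebraMap F N).injective
      rw [← hf, ← hf, hab]
    refine ⟨p.map f, (Polynomial.map_ne_zero_iff hfinj).2 hp0, ?_⟩
    rw [Polynomial.aeval_def, Polynomial.eval₂_map]
    exact hp
  obtain ⟨V₁, hk, h1, h2, h3⟩ := TGC56.exists_ord (fun i => algebraMap F N (t i)) hy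
  have hWk : ∀ c : k, algebraMap k N c ∈ W := by
    intro c
    have h4 : algebraMap k F c ∈ W.comap (algebraMap F N) := by rw [hW]; exact hpt.ov c
    rw [IsScalarTower.algebraMap_apply k F N]
    exact h4
  have hWt : ∀ i, W.valuation (algebraMap F N (t i)) < 1 := by
    intro i
    rw [← comap_lt_one (L := F) W, hW]
    exact hpt.lt i
  have hV₁t : ∀ i, V₁.valuation (algebraMap F N (t i)) < 1 := fun i => (h2 i).trans_lt h1
  -- the ring `B`
  let B : Subring N := (ncl (up N R)).toSubring
  have hBs : ∀ ρ : N ≃ₐ[F] N, ∀ b ∈ B, ρ b ∈ B := fun ρ b hb => ncl_up_stable ρ hb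
  have hBW : ∀ b ∈ B, b ∈ W := by
    refine ncl_mem ?_
    rintro _ ⟨a, ha, rfl⟩
    exact (hpt.lt_one_iff ha W hWk hWt).2
  have hBV : ∀ b ∈ B, b ∈ V₁ := by
    refine ncl_mem ?_
    rintro _ ⟨a, ha, rfl⟩
    exact (hpt.lt_one_iff ha V₁ hk hV₁t).2
  have hP := cenI_isPrime B W hBW
  have hQ := cenI_isPrime B V₁ hBV
  obtain ⟨ρ, hρ⟩ := exists_conj_eq (L := F) B hBs (cenI B W hBW) (cenI B V₁ hBV) (by
    rintro b ⟨l, hl⟩
    rw [mem_cenI, mem_cenI, ← hl]
    have hlR : l ∈ R := by
      refine hpt.integral ?_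
      have h5 : algebraMap F N l ∈ ncl (up N R) := by rw [hl]; exact b.2
      have h6 := (ncl_up_iff (L := F) (N := N) l).2 h5
      have h7 : up F R = R := by
        ext x
        rw [mem_up]
        constructor
        · rintro ⟨a, ha, rfl⟩; exact ha
        · intro hx; exact ⟨x, hx, rfl⟩
      rw [h7] at h6
      exact h6
    rw [(hpt.lt_one_iff hlR W hWk hWt).1, (hpt.lt_one_iff hlR V₁ hk hV₁t).1])
  refine ⟨_, _, V₁.valuation.comap (ρ : N →+* N), ?_, ?_, ?_, ?_, ?_, ?_⟩
  · intro c
    have h4 : (ρ : N →+* N) (algebraMap k N c) = algebraMap k N c := by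
      rw [IsScalarTower.algebraMap_apply k F N]
      exact ρ.commutes _
    rw [Valuation.comap_apply, h4, V₁.valuation_le_one_iff]
    exact hk c
  · rw [Valuation.comap_apply]
    exact (congrArg V₁.valuation (ρ.commutes _)).trans_lt h1
  · intro i
    rw [Valuation.comap_apply, Valuation.comap_apply]
    exact (congrArg V₁.valuation (ρ.commutes _)).trans_le
      ((h2 i).trans_eq (congrArg V₁.valuation (ρ.commutes _)).symm)
  · intro m a ha hm
    rw [Valuation.comap_apply, Valuation.comap_apply, aeval_comp]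
    have h4 := h3 m a ha hm
    rw [aeval_comp] at h4
    have h5 : ∀ x : F, (ρ : N →+* N) (algebraMap F N x) = algebraMap F N x := ρ.commutes
    rw [h5, h5]
    exact h4
  · intro Δ hΔ
    obtain ⟨c, hc⟩ := exists_pow_le (fun i => algebraMap F N (t i)) V₁ hk
      (fun i => (V₁.valuation_le_one_iff _).1 (hV₁t i).le) h3 (ρ Δ)
      ((map_ne_zero_iff _ ρ.injective).2 hΔ)
    refine ⟨c, ?_⟩
    rw [Valuation.comap_apply, Valuation.comap_apply]
    have h5 : ∀ x : F, (ρ : N →+* N) (algebraMap F N x) = algebraMap F N x := ρ.commutes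
    rw [h5]
    exact hc
  · intro a ha
    rw [Valuation.comap_apply]
    refine ⟨(V₁.valuation_le_one_iff _).2 (hBV _ (hBs ρ a ha)), ?_⟩
    exact (hρ ⟨a, ha⟩).symm

end Points

section LDeg

variable {k F M : Type u} [Field k] [Field F] [Field M] [Algebra k F] [Algebra k M] [Algebra F M]
  [IsScalarTower k F M]

/-- Integral elements are mapped to integral elements. -/
theorem map_mem_ncl {N : Type u} [Field N] [Algebra k N] [Algebra F N] [IsScalarTower k F N]
    (j : M →ₐ[F] N) {R : Subalgebra k F} {a : M} (ha : a ∈ ncl (up M R)) :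
    j a ∈ ncl (up N R) := by
  obtain ⟨p, hp, hc, h0⟩ := exists_poly_of_mem_ncl ha
  refine mem_ncl_of_root (p.map (j : M →+* N)) (hp.map _) (fun i => ?_) ?_
  · rw [Polynomial.coeff_map]
    obtain ⟨r, hr, h1⟩ := (mem_up (N := M) (R := R)).1 (hc i)
    rw [← h1]
    refine le_ncl _ ((mem_up (N := N) (R := R)).2 ⟨r, hr, ?_⟩)
    exact (j.commutes r).symm
  · have h1 : Polynomial.eval ((j : M →+* N) a) (p.map (j : M →+* N)) = 0 := by
      rw [Polynomial.eval_map, Polynomial.eval₂_hom, h0, map_zero]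
    exact h1

/-- **Good points**, with a filtration `I s` of the local ring `O`. -/
structure GoodF (v₀ : ValuationSubring F) (R : Subalgebra k F) {n : ℕ} (t : Fin (n + 1) → F)
    (q E : ℕ) (W : ValuationSubring M) (O : Subalgebra k M) (I : ℕ → Submodule k O) : Prop where
  mem : ∀ g ∈ O, g ∈ locV W (ncl (up M R))
  t_mem : ∀ i, algebraMap F M (t i) ∈ O
  gen : IntermediateField.adjoin F (O : Set M) = ⊤
  dim : ∃ c₁ : ℕ, ∃ᶠ s : ℕ in Filter.atTop, FiniteDimensional k (O ⧸ I s) ∧
    (n + 1).factorial * finrank k (O ⧸ I s) ≤ E * (s + c₁) ^ (n + 1)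
  good : ∀ ω : ValuationSubring M, Ov k ω → (∀ g ∈ O, g ∈ ω) →
    (∀ g ∈ O, W.valuation g < 1 → ω.valuation g < 1) →
    (∀ i, ω.valuation (algebraMap F M (t i)) ≤ ω.valuation (algebraMap F M (t 0))) →
    ∀ s, ∀ g ∈ I s, ω.valuation (g : M) ^ q ≤ ω.valuation (algebraMap F M (t 0)) ^ s

/-- **Bounds for the local degrees at all points.** -/
theorem ldeg_of_goodF {v₀ : ValuationSubring F} {R : Subalgebra k F} {n : ℕ}
    {t : Fin (n + 1) → F} (hpt : Pt v₀ R t) {q E : ℕ} (hq : 0 < q)
    (H : ∀ W : ValuationSubring M, W.comap (algebraMap F M) = v₀ →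
      ∃ (O : Subalgebra k M) (I : ℕ → Submodule k O), GoodF v₀ R t q E W O I) :
    LDeg M v₀ R (q ^ (n + 1) * E) := by
  classical
  intro N _ _ _ _ _ _ j W hW
  obtain ⟨Γ, _, v, hvk, hγ1, hvt, hord, harch, hcen⟩ := hpt.exists_ord W hW
  -- the valuation ring of `M`
  set W' : ValuationSubring M := W.comap (j : M →+* N) with hW'
  have hW'v : W'.comap (algebraMap F M) = v₀ := by
    rw [← hW]
    ext x
    change (j : M →+* N) (algebraMap F M x) ∈ W ↔ algebraMap F N x ∈ W
    have h1 : (j : M →+* N) (algebraMap F M x) = algebraMap F N x := j.commutes x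
    rw [h1]
  obtain ⟨O, I, hG⟩ := H W' hW'v
  obtain ⟨c₁, hdim⟩ := hG.dim
  have hW'lt : ∀ x : M, W'.valuation x < 1 ↔ W.valuation (j x) < 1 := by
    intro x
    let _ : Algebra M N := (j : M →+* N).toAlgebra
    exact comap_lt_one (L := M) (N := N) W x
  have hγ0 : v (algebraMap F N (t 0)) ≠ 0 := by
    rw [Valuation.ne_zero_iff]
    exact (map_ne_zero_iff _ (algebraMap F N).injective).2 (hpt.ind.ne_zero 0)
  have hfix : ∀ (σ : N ≃ₐ[F] N) (x : F), σ (j (algebraMap F M x)) = algebraMap F N x := by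
    intro σ x
    rw [j.commutes]
    exact σ.commutes x
  -- elements of `O`
  have hOint : ∀ σ ∈ stab W R, ∀ a ∈ ncl (up M R), v (σ (j a)) ≤ 1 ∧
      (v (σ (j a)) < 1 ↔ W'.valuation a < 1) := by
    intro σ hσ a ha
    have h1 := map_mem_ncl j ha
    have h2 := hcen _ (ncl_up_stable σ h1)
    refine ⟨h2.1, h2.2.trans ?_⟩
    rw [hσ _ h1, hW'lt]
  have hOg : ∀ σ ∈ stab W R, ∀ g ∈ O, v (σ (j g)) ≤ 1 ∧ (W'.valuation g < 1 → v (σ (j g)) < 1) := by
    intro σ hσ g hg
    obtain ⟨a, ha, b, hb, h1, rfl⟩ := hG.mem g hg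
    have hb1 : v (σ (j b)) = 1 := by
      refine le_antisymm (hOint σ hσ b hb).1 ?_
      by_contra h
      push Not at h
      exact absurd h1 (ne_of_lt ((hOint σ hσ b hb).2.1 h))
    rw [map_div₀, map_div₀, map_div₀, map_div₀, hb1, h1, div_one, div_one]
    exact ⟨(hOint σ hσ a ha).1, (hOint σ hσ a ha).2.2⟩
  have hres := relIndex_le (F := F) (N := N) (O := O) (stab W R) (j.fieldRange.fixingSubgroup)
    ((j.restrictScalars k).comp O.val)
    (fun σ hσ hg => ?_) v hγ0 hγ1 (fun σ hσ g => (hOg σ hσ g g.2).1) harch t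
    (fun i => ⟨algebraMap F M (t i), hG.t_mem i⟩) (fun i => j.commutes _) hord I hq
    (fun σ hσ s w hw => ?_) hdim
  · exact hres
  · -- separation
    let E' : IntermediateField F M :=
      { carrier := {x | σ (j x) = j x}
        mul_mem' := fun {a b} ha hb => by
          change σ (j (a * b)) = j (a * b)
          rw [map_mul, map_mul, ha, hb]
        one_mem' := by
          change σ (j 1) = j 1
          rw [map_one, map_one]
        add_mem' := fun {a b} ha hb => by
          change σ (j (a + b)) = j (a + b)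
          rw [map_add, map_add, ha, hb]
        zero_mem' := by
          change σ (j 0) = j 0
          rw [map_zero, map_zero]
        algebraMap_mem' := fun r => by
          change σ (j (algebraMap F M r)) = j (algebraMap F M r)
          rw [j.commutes]
          exact σ.commutes r
        inv_mem' := fun x hx => by
          change σ (j x⁻¹) = j x⁻¹
          have hx' : σ (j x) = j x := hx
          rw [map_inv₀, map_inv₀, hx'] }
    have h1 : IntermediateField.adjoin F (O : Set M) ≤ E' :=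
      IntermediateField.adjoin_le_iff.2 fun g hg' => hg ⟨g, hg'⟩
    rw [hG.gen] at h1
    rw [IntermediateField.mem_fixingSubgroup_iff]
    rintro _ ⟨x, rfl⟩
    exact h1 (show x ∈ (⊤ : IntermediateField F M) from IntermediateField.mem_top)
  · -- goodness
    let f : M →+* N := ((σ : N ≃ₐ[F] N) : N →+* N).comp (j : M →+* N)
    let vM : Valuation M Γ := v.comap f
    have hvM : ∀ x, vM x = v (σ (j x)) := fun x => rfl
    let ω : ValuationSubring M := vM.valuationSubring
    have heq : vM.IsEquiv ω.valuation := vM.isEquiv_valuation_valuationSubring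
    have h1 : ω.valuation (w : M) ^ q ≤ ω.valuation (algebraMap F M (t 0)) ^ s := by
      refine hG.good ω (fun c => ?_) (fun g hg => ?_) (fun g hg hgW => ?_) (fun i => ?_) s w hw
      · change vM (algebraMap k M c) ≤ 1
        rw [hvM, IsScalarTower.algebraMap_apply k F M, hfix, ← IsScalarTower.algebraMap_apply]
        exact hvk c
      · change vM g ≤ 1
        exact (hOg σ hσ g hg).1
      · rw [← heq.lt_one_iff_lt_one, hvM]
        exact (hOg σ hσ g hg).2 hgW
      · rw [← heq, hvM, hvM, hfix, hfix]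
        exact hvt i
    rw [← map_pow, ← map_pow, ← heq, map_pow, map_pow, hvM, hvM, hfix] at h1
    exact h1

/-- **Good points**: the powers of an ideal `𝔪`. -/
structure GoodAt (v₀ : ValuationSubring F) (R : Subalgebra k F) {n : ℕ} (t : Fin (n + 1) → F)
    (q E : ℕ) (W : ValuationSubring M) (O : Subalgebra k M) (𝔪 : Ideal O) : Prop where
  mem : ∀ g ∈ O, g ∈ locV W (ncl (up M R))
  t_mem : ∀ i, algebraMap F M (t i) ∈ O
  gen : IntermediateField.adjoin F (O : Set M) = ⊤
  lt : ∀ w ∈ 𝔪, W.valuation (w : M) < 1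
  dim : ∃ c₁ : ℕ, ∃ᶠ s : ℕ in Filter.atTop, FiniteDimensional k (O ⧸ 𝔪 ^ s) ∧
    (n + 1).factorial * finrank k (O ⧸ 𝔪 ^ s) ≤ E * (s + c₁) ^ (n + 1)
  good : ∀ ω : ValuationSubring M, Ov k ω → (∀ g ∈ O, g ∈ ω) →
    (∀ w ∈ 𝔪, ω.valuation (w : M) < 1) →
    (∀ i, ω.valuation (algebraMap F M (t i)) ≤ ω.valuation (algebraMap F M (t 0))) →
    ∀ w ∈ 𝔪, ω.valuation (w : M) ^ q ≤ ω.valuation (algebraMap F M (t 0))

theorem GoodAt.goodF {v₀ : ValuationSubring F} {R : Subalgebra k F} {n : ℕ}
    {t : Fin (n + 1) → F} {q E : ℕ} {W : ValuationSubring M} {O : Subalgebra k M} {𝔪 : Ideal O}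
    (h : GoodAt v₀ R t q E W O 𝔪) :
    GoodF v₀ R t q E W O fun s => (𝔪 ^ s).restrictScalars k where
  mem := h.mem
  t_mem := h.t_mem
  gen := h.gen
  dim := by
    obtain ⟨c₁, h1⟩ := h.dim
    refine ⟨c₁, h1.mono fun s hs => ?_⟩
    obtain ⟨h2, h3⟩ := hs
    let e := Submodule.Quotient.restrictScalarsEquiv k (𝔪 ^ s)
    refine ⟨Module.Finite.equiv e.symm, ?_⟩
    rw [e.finrank_eq]
    exact h3
  good := by
    intro ω hω hO hlt ht s g hg
    exact val_pow_le ω.valuation _ 𝔪 q (O.subtype : O →+* M)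
      (fun x => (ω.valuation_le_one_iff _).2 (hO x x.2))
      (h.good ω hω hO (fun w hw => hlt w w.2 (h.lt w hw)) ht) s g hg

theorem ldeg_of_good {v₀ : ValuationSubring F} {R : Subalgebra k F} {n : ℕ}
    {t : Fin (n + 1) → F} (hpt : Pt v₀ R t) {q E : ℕ} (hq : 0 < q)
    (H : ∀ W : ValuationSubring M, W.comap (algebraMap F M) = v₀ →
      ∃ (O : Subalgebra k M) (𝔪 : Ideal O), GoodAt v₀ R t q E W O 𝔪) :
    LDeg M v₀ R (q ^ (n + 1) * E) :=
  ldeg_of_goodF hpt hq fun W hW => by
    obtain ⟨O, 𝔪, h⟩ := H W hW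
    exact ⟨O, _, h.goodF⟩

end LDeg

end Pool.Agent.TGC56
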