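import Pool.Agent.Lib.TG_h56.Deg
import Pool.Agent.Lib.TG_h81.Proj
import Mathlib

/-!
# TANK G, section C: the field `deg` of `Proj`
-/

set_option autoImplicit false

namespace Pool.Agent.TGC56

open Module MvPolynomial Filter
open Pool.Agent.TG
open Pool.Agent.TG15

universe u

section Proj

variable {k K : Type u} [Field k] [Field K] [Algebra k K] {m : ℕ}

/-- The homogeneous coordinates `1, b, z` in `k(b, z)`. -/
def coo (k : Type u) {K : Type u} [Field k] [Field K] [Algebra k K] {m : ℕ} (b : Fin m → K)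
    (z : K) : Fin (m + 2) → KB k b z :=
  Fin.cons 1 (Fin.snoc (fun i => ⟨b i, IntermediateField.subset_adjoin k _
    (Set.mem_insert_of_mem _ ⟨i, rfl⟩)⟩)
    ⟨z, IntermediateField.subset_adjoin k _ (Set.mem_insert _ _)⟩)

theorem coo_zero (b : Fin m → K) (z : K) : coo k b z 0 = 1 := rfl

theorem coo_succ_castSucc (b : Fin m → K) (z : K) (i : Fin m) :
    (coo k b z i.castSucc.succ : K) = b i := by
  rw [coo, Fin.cons_succ, Fin.snoc_castSucc]

theorem coo_succ_last (b : Fin m → K) (z : K) :
    (coo k b z (Fin.last m).succ : K) = z := by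
  rw [coo, Fin.cons_succ, Fin.snoc_last]

theorem range_coo (b : Fin m → K) (z : K) :
    (fun x : KB k b z => (x : K)) '' Set.range (coo k b z) = insert 1 (insert z (Set.range b)) := by
  ext x
  constructor
  · rintro ⟨_, ⟨i, rfl⟩, rfl⟩
    refine Fin.cases ?_ (fun i => ?_) i
    · exact Set.mem_insert _ _
    · refine Fin.lastCases ?_ (fun i => ?_) i
      · change (coo k b z (Fin.last m).succ : K) ∈ _
        rw [coo_succ_last]
        exact Set.mem_insert_of_mem _ (Set.mem_insert _ _)
      · change (coo k b z i.castSucc.succ : K) ∈ _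
        rw [coo_succ_castSucc]
        exact Set.mem_insert_of_mem _ (Set.mem_insert_of_mem _ ⟨i, rfl⟩)
  · rintro (rfl | rfl | ⟨i, rfl⟩)
    · exact ⟨_, ⟨0, rfl⟩, rfl⟩
    · exact ⟨_, ⟨(Fin.last m).succ, rfl⟩, coo_succ_last b _⟩
    · exact ⟨_, ⟨i.castSucc.succ, rfl⟩, coo_succ_castSucc b z i⟩

theorem PP_eq (b : Fin m → K) (z : K) : PP k b z = Submodule.span k (Set.range (coo k b z)) := by
  have h1 : Submodule.span k (insert 1 (insert z (Set.range b)) : Set K) =
      (Submodule.span k (Set.range (coo k b z))).map (KB k b z).val.toLinearMap := by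
    rw [Submodule.map_span, ← range_coo (k := k) b z]
    rfl
  rw [PP, spn, h1]
  exact Submodule.comap_map_eq_of_injective (KB k b z).val.toRingHom.injective _

theorem bir_coo (b : Fin m → K) (z : K) : Bir (Submodule.span k (Set.range (coo k b z))) := by
  rw [Bir, eq_top_iff]
  intro x _
  set S : Set (KB k b z) := {x | ∃ f ∈ Submodule.span k (Set.range (coo k b z)),
    ∃ g ∈ Submodule.span k (Set.range (coo k b z)), x = g / f} with hS
  have h1 : KB k b z ≤ (IntermediateField.adjoin k S).map (KB k b z).val := by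
    rw [IntermediateField.adjoin_le_iff]
    have h2 : ∀ i, coo k b z i ∈ IntermediateField.adjoin k S := by
      intro i
      refine IntermediateField.subset_adjoin k _ ⟨1, ?_, coo k b z i,
        Submodule.subset_span ⟨i, rfl⟩, by rw [div_one]⟩
      exact Submodule.subset_span ⟨0, rfl⟩
    rintro _ (rfl | ⟨i, rfl⟩)
    · exact ⟨_, h2 (Fin.last m).succ, coo_succ_last b _⟩
    · exact ⟨_, h2 i.castSucc.succ, coo_succ_castSucc b z i⟩
  obtain ⟨y, hy, hyx⟩ := h1 x.2
  have h3 : y = x := Subtype.ext hyx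
  rw [← h3]
  exact hy

/-- **The field `deg` of `Proj` from Theorem 1.** -/
theorem deg_of_T1 [IsAlgClosed k] {q N E : ℕ} {e : Fin (N + 1) → K}
    {G : Fin (m + 2) → MvPolynomial (Fin (N + 1)) k} (hq : 0 < q) (he : ∃ l, e l ≠ 0)
    (hG : ∀ j, (G j).IsHomogeneous q)
    (hT : ∀ ω : ValuationSubring K, Ov k ω → T1at q e G ω)
    (hbir : Bir (Submodule.span k (Set.range e)))
    (hdim : ∀ V : ValuationSubring K, ZDim k V → ∀ f₀,
      IsMin V (Submodule.span k (Set.range e)) f₀ → ∃ᶠ s in atTop,
        (m + 1).factorial * finrank k (ch (Submodule.span k (Set.range e)) f₀ ⧸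
          mx (Submodule.span k (Set.range e)) f₀ (hx V (Submodule.span k (Set.range e))) ^ s) ≤
          E * s ^ (m + 1))
    (b : Fin m → K) (z : K) (h0 : aeval e (G 0) ≠ 0)
    (hb : ∀ i : Fin m, b i = aeval e (G i.castSucc.succ) / aeval e (G 0))
    (hz : z = aeval e (G (Fin.last m).succ) / aeval e (G 0))
    [Algebra.IsAlgebraic (KB k b z) K]
    (htr : Algebra.trdeg k (KB k b z) = ((m + 1 : ℕ) : Cardinal))
    (v₀ : ValuationSubring (KB k b z)) (hv₀ : ZDim k v₀) :
    LDeg K v₀ (RV v₀ (PP k b z)) (q ^ (m + 1) * E) := by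
  rw [PP_eq]
  refine ldeg_proj hq he hG hT hbir hdim htr (coo k b z) h0 (fun j => ?_) (bir_coo b z) hv₀
  change (coo k b z j : K) = _
  refine Fin.cases ?_ (fun i => ?_) j
  · rw [div_self h0]; rfl
  · refine Fin.lastCases ?_ (fun i => ?_) i
    · rw [coo_succ_last]; exact hz
    · rw [coo_succ_castSucc]; exact hb i

end Proj

end Pool.Agent.TGC56
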