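import Pool.Agent.Lib.TG_h56.LDeg
import Pool.Agent.Lib.TG15.LemDF
import Mathlib

/-!
# TANK G, section C: the points of a projective space, the local ring of a point of a model
-/

set_option autoImplicit false

namespace Pool.Agent.TGC56

open Module MvPolynomial Filter
open Pool.Agent.TG
open Pool.Agent.TG15
open Pool.Agent.LU2 (locV)
open scoped IntermediateField.algebraAdjoinAdjoin

universe u

section PtP

variable {k F : Type u} [Field k] [Field F] [Algebra k F]

/-- The points of the projective space with the homogeneous coordinates `g`. -/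
theorem pt_of_min {n : ℕ} (g : Fin (n + 2) → F)
    (hbir : Bir (Submodule.span k (Set.range g))) (htr : Algebra.trdeg k F = ((n + 1 : ℕ) : Cardinal))
    {v₀ : ValuationSubring F} (hov : Ov k v₀) {j : Fin (n + 2)}
    (hj : IsMin v₀ (Submodule.span k (Set.range g)) (g j)) (c : Fin (n + 2) → k)
    (hc : ∀ i, v₀.valuation (g i / g j - algebraMap k F (c i)) < 1) :
    Pt v₀ (RV v₀ (Submodule.span k (Set.range g)))
      (fun i : Fin (n + 1) => g (j.succAbove i) / g j - algebraMap k F (c (j.succAbove i))) := by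
  classical
  set P := Submodule.span k (Set.range g) with hP
  set t : Fin (n + 1) → F :=
    fun i => g (j.succAbove i) / g j - algebraMap k F (c (j.succAbove i)) with ht
  set A := Algebra.adjoin k (Set.range t) with hA
  have hgA : ∀ i, g i / g j ∈ A := by
    intro i
    by_cases hij : i = j
    · rw [hij, div_self hj.ne]
      exact A.one_mem
    · obtain ⟨i', rfl⟩ := Fin.exists_succAbove_eq hij
      have h1 : t i' ∈ A := Algebra.subset_adjoin ⟨i', rfl⟩
      have h2 := A.add_mem h1 (A.algebraMap_mem (c (j.succAbove i')))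
      rw [ht] at h2
      change g (j.succAbove i') / g j - algebraMap k F (c (j.succAbove i')) +
        algebraMap k F (c (j.succAbove i')) ∈ A at h2
      rwa [sub_add_cancel] at h2
  have hPA : ∀ x ∈ P, x / g j ∈ A := by
    intro x hx
    induction hx using Submodule.span_induction with
    | mem x hx => obtain ⟨i, rfl⟩ := hx; exact hgA i
    | zero => rw [zero_div]; exact A.zero_mem
    | add x y _ _ hx hy => rw [add_div]; exact A.add_mem hx hy
    | smul a x _ hx => rw [smul_div_assoc]; exact A.smul_mem hx a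
  have hch : ch P (g j) = A := by
    refine le_antisymm (ch_le_iff.2 hPA) ?_
    refine Algebra.adjoin_le ?_
    rintro _ ⟨i, rfl⟩
    exact (ch P (g j)).sub_mem (div_mem_ch (Submodule.subset_span ⟨_, rfl⟩))
      ((ch P (g j)).algebraMap_mem _)
  have hfrac : ∀ x : F, ∃ a ∈ A, ∃ b ∈ A, x = a / b := by
    intro x
    have h1 : (⊤ : IntermediateField k F) ≤ IntermediateField.adjoin k (Set.range t) := by
      rw [← hbir, IntermediateField.adjoin_le_iff]
      rintro _ ⟨f, hf, h, hh, rfl⟩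
      have hAE : A ≤ (IntermediateField.adjoin k (Set.range t)).toSubalgebra :=
        IntermediateField.algebra_adjoin_le_adjoin _ _
      have h2 : h / f = (h / g j) / (f / g j) := by rw [div_div_div_cancel_right₀ hj.ne]
      rw [h2]
      exact div_mem (hAE (hPA h hh)) (hAE (hPA f hf))
    obtain ⟨r, hr, s, hs, h2⟩ := IntermediateField.mem_adjoin_iff_div.1
      (h1 (IntermediateField.mem_top (x := x)))
    exact ⟨r, hr, s, hs, h2⟩
  refine ⟨hov, ?_, hfrac, fun i => hc _, ?_⟩
  · have h2 : IsFractionRing A F :=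
      .of_field _ _ fun x => by
        obtain ⟨a, ha, b, hb, h⟩ := hfrac x
        exact ⟨⟨a, ha⟩, ⟨b, hb⟩, h⟩
    have h3 : Algebra.IsAlgebraic A F := IsLocalization.isAlgebraic _ (nonZeroDivisors A)
    have h4 := Algebra.IsAlgebraic.isTranscendenceBasis_of_lift_le_trdeg_of_finite k t (by
      rw [htr]
      simp)
    exact h4.1
  · rw [RV_eq hj, hch]

end PtP

section LocO

variable {k K : Type u} [Field k] [Field K] [Algebra k K] {V : ValuationSubring K}
  {H : Submodule k K} {f₀ : K}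

/-- The local ring of the chart at the centre. -/
abbrev locO (V : ValuationSubring K) (H : Submodule k K) (f₀ : K) : Subalgebra k K :=
  locV V (ch H f₀)

/-- The powers of the maximal ideal of the local ring. -/
noncomputable def mO (V : ValuationSubring K) (H : Submodule k K) (f₀ : K) :
    Ideal (locO V H f₀) :=
  (mx H f₀ (hx V H)).map (Subalgebra.inclusion (LU2.le_locV (V := V) (ch H f₀)))

theorem mx_lt (hf : IsMin V H f₀) (hV : Ov k V) {a : ch H f₀} (ha : a ∈ mx H f₀ (hx V H)) :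
    V.valuation (a : K) < 1 := by
  refine Submodule.span_induction (R := ch H f₀) (M := ch H f₀)
    (s := {a | ∃ h ∈ hx V H, (a : K) = h / f₀})
    (p := fun (a : ch H f₀) _ => V.valuation (a : K) < 1) ?_ ?_ ?_ ?_ ha
  · rintro a ⟨x, hx', hxa⟩
    rw [hxa]
    rcases hx'.2 with h | ⟨y, hy, hxy⟩
    · rw [h, zero_div, map_zero]; exact zero_lt_one
    · have hf0 : 0 < V.valuation f₀ := zero_lt_iff.2 ((Valuation.ne_zero_iff _).2 hf.ne)
      rw [map_div₀]
      refine (div_lt_one₀ hf0).2 (hxy.trans_le ?_)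
      have h1 := (V.valuation_le_one_iff _).2 (hf.div y hy)
      rw [map_div₀] at h1
      exact (div_le_one₀ hf0).1 h1
  · rw [ZeroMemClass.coe_zero, map_zero]; exact zero_lt_one
  · intro x y _ _ hx hy
    exact (V.valuation.map_add _ _).trans_lt (max_lt hx hy)
  · intro a x _ hx
    change V.valuation ((a : K) * (x : K)) < 1
    rw [map_mul]
    exact (mul_le_of_le_one_left' ((V.valuation_le_one_iff _).2 (ch_le hV hf _ a.2))).trans_lt hx

/-- `O / m ^ s` is a quotient of the chart modulo `m ^ s`. -/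
theorem mO_quot (hV : ZDim k V) (hH : H.FG) (hf : IsMin V H f₀) (s : ℕ) :
    FiniteDimensional k (locO V H f₀ ⧸ mO V H f₀ ^ s) ∧
      finrank k (locO V H f₀ ⧸ mO V H f₀ ^ s) ≤
        finrank k (ch H f₀ ⧸ mx H f₀ (hx V H) ^ s) := by
  classical
  set ι := Subalgebra.inclusion (LU2.le_locV (V := V) (ch H f₀)) with hι
  have hfd : FiniteDimensional k (ch H f₀ ⧸ mx H f₀ (hx V H) ^ s) :=
    finite_quot hV hH hf s _ le_rfl
  have hmax := mx_isMaximal hV hf
  let φ : ch H f₀ →ₐ[k] (locO V H f₀ ⧸ mO V H f₀ ^ s) :=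
    (Ideal.Quotient.mkₐ k (mO V H f₀ ^ s)).comp ι
  have hφ : ∀ a ∈ mx H f₀ (hx V H) ^ s, φ a = 0 := by
    intro a ha
    change Ideal.Quotient.mk _ (ι a) = 0
    rw [Ideal.Quotient.eq_zero_iff_mem, mO, ← Ideal.map_pow]
    exact Ideal.mem_map_of_mem _ ha
  let ψ := Ideal.Quotient.liftₐ (mx H f₀ (hx V H) ^ s) φ hφ
  have hψ : Function.Surjective ψ := by
    intro x
    obtain ⟨⟨x, hx'⟩, rfl⟩ := Ideal.Quotient.mk_surjective x
    obtain ⟨a, ha, b, hb, h1, rfl⟩ := hx'
    -- the inverse of `b` modulo `m ^ s`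
    have hbm : (⟨b, hb⟩ : ch H f₀) ∉ mx H f₀ (hx V H) := fun h =>
      absurd h1 (ne_of_lt (mx_lt hf hV.ov h))
    obtain ⟨w₀, c, hc, hwc⟩ := hmax.exists_inv hbm
    have h3 : ∃ w : ch H f₀, 1 - w * ⟨b, hb⟩ ∈ mx H f₀ (hx V H) ^ s := by
      have h4 : c ^ s ∈ mx H f₀ (hx V H) ^ s := Ideal.pow_mem_pow hc s
      have h5 : c = 1 - w₀ * ⟨b, hb⟩ := by rw [← hwc]; ring
      rw [h5] at h4
      obtain ⟨d, hd⟩ : (⟨b, hb⟩ : ch H f₀) ∣ 1 - (1 - w₀ * ⟨b, hb⟩) ^ s := by
        have h6 := sub_dvd_pow_sub_pow (1 : ch H f₀) (1 - w₀ * ⟨b, hb⟩) s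
        rw [one_pow, sub_sub_cancel] at h6
        exact (Dvd.intro_left _ rfl).trans h6
      refine ⟨d, ?_⟩
      have h7 : (1 - w₀ * ⟨b, hb⟩) ^ s = 1 - d * (⟨b, hb⟩ : ch H f₀) := by
        rw [mul_comm d, ← hd]; ring
      rwa [h7] at h4
    obtain ⟨w, hw⟩ := h3
    refine ⟨Ideal.Quotient.mk _ (⟨a, ha⟩ * w), ?_⟩
    change Ideal.Quotient.mk _ (ι (⟨a, ha⟩ * w)) = _
    rw [Ideal.Quotient.eq, mO, ← Ideal.map_pow]
    have hbinv : b⁻¹ ∈ locO V H f₀ := LU2.locV_inv (LU2.le_locV _ hb) h1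
    have hb0 : b ≠ 0 := by
      rintro rfl
      rw [map_zero] at h1
      exact zero_ne_one h1
    have h4 : ι (⟨a, ha⟩ * w) - (⟨a / b, ⟨a, ha, b, hb, h1, rfl⟩⟩ : locO V H f₀) =
        -(ι ⟨a, ha⟩ * ⟨b⁻¹, hbinv⟩) * ι (1 - w * ⟨b, hb⟩) := by
      apply Subtype.ext
      change a * (w : K) - a / b = -(a * b⁻¹) * (1 - (w : K) * b)
      field_simp
      ring
    rw [h4]
    exact Ideal.mul_mem_left _ _ (Ideal.mem_map_of_mem _ hw)
  have h5 : Function.Surjective ψ.toLinearMap := hψ
  exact ⟨Module.Finite.of_surjective ψ.toLinearMap h5,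
    LinearMap.finrank_le_finrank_of_surjective h5⟩

end LocO

end Pool.Agent.TGC56
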